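import Mathlib

/-!
# Kreiss condition, part 1: resolvent family, rational structure of matrix elements
-/

open scoped InnerProductSpace
open Polynomial

namespace Pool.Agent.H612K

variable {E : Type*} [NormedAddCommGroup E] [InnerProductSpace ℂ E]

/-- `R` is the resolvent of `T` outside the closed unit disc, with the Kreiss bound. -/
structure KR (T : E →L[ℂ] E) (K : ℝ) (R : ℂ → E →L[ℂ] E) : Prop where
  left : ∀ z : ℂ, 1 < ‖z‖ → R z * (z • (1 : E →L[ℂ] E) - T) = 1
  right : ∀ z : ℂ, 1 < ‖z‖ → (z • (1 : E →L[ℂ] E) - T) * R z = 1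
  bound : ∀ z : ℂ, 1 < ‖z‖ → ‖R z‖ ≤ K / (‖z‖ - 1)

variable {T : E →L[ℂ] E} {K : ℝ} {R : ℂ → E →L[ℂ] E}

theorem KR.left' (h : KR T K R) {z : ℂ} (hz : 1 < ‖z‖) (x : E) : R z (z • x - T x) = x := by
  have := congrArg (fun S : E →L[ℂ] E => S x) (h.left z hz)
  simpa using this

theorem KR.right' (h : KR T K R) {z : ℂ} (hz : 1 < ‖z‖) (x : E) :
    z • R z x - T (R z x) = x := by
  have := congrArg (fun S : E →L[ℂ] E => S x) (h.right z hz)
  simpa using this

/-- the resolvent identity -/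
theorem KR.res_id (h : KR T K R) {z w : ℂ} (hz : 1 < ‖z‖) (hw : 1 < ‖w‖) (x : E) :
    R z x - R w x = (w - z) • R z (R w x) := by
  have h1 : x = w • R w x - T (R w x) := (h.right' hw x).symm
  have h2 : R z (z • R w x - T (R w x)) = R w x := h.left' hz _
  have h3 : R z x = R z (w • R w x - T (R w x)) := congrArg (R z) h1
  rw [h3]
  have h4 : w • R w x - T (R w x) = (z • R w x - T (R w x)) + (w - z) • R w x := by
    rw [sub_smul]; abel
  rw [h4, map_add, h2, map_smul]
  abel

theorem KR.comm (h : KR T K R) {z w : ℂ} (hz : 1 < ‖z‖) (hw : 1 < ‖w‖) (x : E) :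
    R z (R w x) = R w (R z x) := by
  by_cases hzw : z = w
  · rw [hzw]
  have h1 := h.res_id hz hw x
  have h2 := h.res_id hw hz x
  have h3 : (w - z) • R z (R w x) = (w - z) • R w (R z x) := by
    rw [← h1, ← neg_sub (R w x) (R z x), h2, ← neg_smul, neg_sub]
  have h4 : w - z ≠ 0 := sub_ne_zero.2 (Ne.symm hzw)
  exact smul_right_injective E h4 h3

theorem KR.commT (h : KR T K R) {z : ℂ} (hz : 1 < ‖z‖) (x : E) :
    R z (T x) = T (R z x) := by
  have h1 := h.left' hz x
  have h2 := h.right' hz x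
  rw [map_sub, map_smul] at h1
  have : z • R z x - R z (T x) = z • R z x - T (R z x) := h1.trans h2.symm
  exact sub_right_injective this

theorem KR.bound' (h : KR T K R) {z : ℂ} (hz : 1 < ‖z‖) (x : E) :
    ‖R z x‖ ≤ K / (‖z‖ - 1) * ‖x‖ :=
  (ContinuousLinearMap.le_opNorm _ _).trans
    (mul_le_mul_of_nonneg_right (h.bound z hz) (norm_nonneg _))

theorem KR.K_nonneg (h : KR T K R) : 0 ≤ K := by
  have h1 := h.bound 2 (by norm_num)
  have h2 : ‖(2 : ℂ)‖ = 2 := by norm_num
  rw [h2] at h1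
  have := (norm_nonneg _).trans h1
  norm_num at this
  exact this

/-! ### Rational functions of bounded degree outside the unit disc -/

/-- `f` coincides, outside the closed unit disc, with a quotient of two polynomials of degree
at most `d`, the denominator having no zero there. -/
def RatD (d : ℕ) (f : ℂ → ℂ) : Prop :=
  ∃ U V : ℂ[X], U.natDegree ≤ d ∧ V.natDegree ≤ d ∧
    ∀ z : ℂ, 1 < ‖z‖ → V.eval z ≠ 0 ∧ f z = U.eval z / V.eval z

theorem RatD.neg {d : ℕ} {f : ℂ → ℂ} (h : RatD d f) : RatD d (fun z => - f z) := by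
  obtain ⟨U, V, hU, hV, hf⟩ := h
  refine ⟨-U, V, by rwa [natDegree_neg], hV, fun z hz => ⟨(hf z hz).1, ?_⟩⟩
  show - f z = _
  rw [(hf z hz).2, eval_neg, neg_div]

theorem RatD.const_mul {d : ℕ} {f : ℂ → ℂ} (h : RatD d f) (c : ℂ) :
    RatD d (fun z => c * f z) := by
  obtain ⟨U, V, hU, hV, hf⟩ := h
  refine ⟨C c * U, V, (natDegree_C_mul_le _ _).trans hU, hV, fun z hz => ⟨(hf z hz).1, ?_⟩⟩
  show c * f z = _
  rw [(hf z hz).2, eval_mul, eval_C, mul_div_assoc]

theorem RatD.add {d₁ d₂ : ℕ} {f g : ℂ → ℂ} (hf : RatD d₁ f) (hg : RatD d₂ g) :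
    RatD (d₁ + d₂) (fun z => f z + g z) := by
  obtain ⟨U, V, hU, hV, hf⟩ := hf
  obtain ⟨U', V', hU', hV', hg⟩ := hg
  refine ⟨U * V' + V * U', V * V', ?_, ?_, fun z hz => ⟨?_, ?_⟩⟩
  · refine (natDegree_add_le _ _).trans (max_le ?_ ?_)
    · exact natDegree_mul_le.trans (add_le_add hU hV')
    · exact natDegree_mul_le.trans (add_le_add hV hU')
  · exact natDegree_mul_le.trans (add_le_add hV hV')
  · rw [eval_mul]
    exact mul_ne_zero (hf z hz).1 (hg z hz).1
  · have h1 := (hf z hz).1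
    have h2 := (hg z hz).1
    show f z + g z = _
    rw [(hf z hz).2, (hg z hz).2, eval_add, eval_mul, eval_mul, eval_mul]
    field_simp

theorem RatD.sub {d₁ d₂ : ℕ} {f g : ℂ → ℂ} (hf : RatD d₁ f) (hg : RatD d₂ g) :
    RatD (d₁ + d₂) (fun z => f z - g z) := by
  simpa [sub_eq_add_neg] using hf.add hg.neg

theorem RatD.comp_mul {d : ℕ} {f : ℂ → ℂ} (h : RatD d f) {a : ℂ} (ha : 1 ≤ ‖a‖) :
    RatD d (fun z => f (a * z)) := by
  obtain ⟨U, V, hU, hV, hf⟩ := h
  have key : ∀ P : ℂ[X], P.natDegree ≤ d → (P.comp (C a * X)).natDegree ≤ d := by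
    intro P hP
    refine (natDegree_comp_le).trans ?_
    have : (C a * X : ℂ[X]).natDegree ≤ 1 := (natDegree_C_mul_le _ _).trans natDegree_X_le
    calc P.natDegree * (C a * X : ℂ[X]).natDegree ≤ d * 1 := Nat.mul_le_mul hP this
      _ = d := mul_one d
  refine ⟨U.comp (C a * X), V.comp (C a * X), key U hU, key V hV, fun z hz => ?_⟩
  have hz' : 1 < ‖a * z‖ := by
    rw [norm_mul]
    nlinarith [norm_nonneg a, norm_nonneg z]
  have := hf (a * z) hz'
  simp only [eval_comp, eval_mul, eval_C, eval_X]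
  exact this

/-! ### counting zeros of the real part on a circle -/

/-- the reflected conjugate polynomial -/
noncomputable def sharp (d : ℕ) (r : ℝ) (V : ℂ[X]) : ℂ[X] :=
  reflect d ((V.map (starRingEnd ℂ)).comp (C ((r : ℂ) ^ 2) * X))

theorem sharp_natDegree (d : ℕ) (r : ℝ) (V : ℂ[X]) (hV : V.natDegree ≤ d) :
    (sharp d r V).natDegree ≤ d := by
  unfold sharp
  refine (natDegree_reflect_le).trans (max_le le_rfl ?_)
  refine (natDegree_comp_le).trans ?_
  have h1 : (C ((r : ℂ) ^ 2) * X : ℂ[X]).natDegree ≤ 1 := (natDegree_C_mul_le _ _).trans natDegree_X_le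
  have h2 : (V.map (starRingEnd ℂ)).natDegree ≤ d := (natDegree_map_le).trans hV
  calc _ ≤ d * 1 := Nat.mul_le_mul h2 h1
    _ = d := mul_one d

theorem sharp_eval (d : ℕ) (r : ℝ) (hr : 0 < r) (V : ℂ[X]) (hV : V.natDegree ≤ d) (z : ℂ)
    (hz : ‖z‖ = r) : (sharp d r V).eval z = z ^ d * (starRingEnd ℂ) (V.eval z) := by
  have hz0 : z ≠ 0 := by
    intro h; rw [h, norm_zero] at hz; exact hr.ne hz
  set W : ℂ[X] := (V.map (starRingEnd ℂ)).comp (C ((r : ℂ) ^ 2) * X) with hW
  have hWd : W.natDegree ≤ d := by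
    refine (natDegree_comp_le).trans ?_
    have h1 : (C ((r : ℂ) ^ 2) * X : ℂ[X]).natDegree ≤ 1 := (natDegree_C_mul_le _ _).trans natDegree_X_le
    have h2 : (V.map (starRingEnd ℂ)).natDegree ≤ d := (natDegree_map_le).trans hV
    calc _ ≤ d * 1 := Nat.mul_le_mul h2 h1
      _ = d := mul_one d
  let _ : Invertible (z⁻¹) := invertibleOfNonzero (inv_ne_zero hz0)
  have h1 := eval₂_reflect_mul_pow (RingHom.id ℂ) (z⁻¹) d W hWd
  have h2 : (⅟(z⁻¹) : ℂ) = z := by rw [invOf_eq_inv, inv_inv]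
  rw [h2, ← eval, ← eval] at h1
  have h3 : W.eval (z⁻¹) = (starRingEnd ℂ) (V.eval z) := by
    rw [hW, eval_comp, eval_mul, eval_C, eval_X]
    have h4 : (r : ℂ) ^ 2 * z⁻¹ = (starRingEnd ℂ) z := by
      have h5 : z * (starRingEnd ℂ) z = (r : ℂ) ^ 2 := by
        rw [Complex.mul_conj, Complex.normSq_eq_norm_sq, hz]
        push_cast; ring
      rw [← h5]; field_simp
    rw [h4, eval_map, eval₂_at_apply]
  rw [h3] at h1
  have h6 : (sharp d r V).eval z = (reflect d W).eval z := rfl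
  rw [h6]
  have h7 : z ^ d * (z⁻¹) ^ d = 1 := by
    rw [← mul_pow, mul_inv_cancel₀ hz0, one_pow]
  calc (reflect d W).eval z = (reflect d W).eval z * (z ^ d * (z⁻¹) ^ d) := by rw [h7, mul_one]
    _ = z ^ d * ((reflect d W).eval z * (z⁻¹) ^ d) := by ring
    _ = _ := by rw [h1]

/-- The real part of a rational function of degree `d` on a circle either vanishes identically
or has at most `2 * d` zeros. -/
theorem RatD.zeros {d : ℕ} {f : ℂ → ℂ} (h : RatD d f) {r : ℝ} (hr : 1 < r) :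
    (∀ z : ℂ, ‖z‖ = r → (f z).re = 0) ∨
    ∃ Z : Finset ℂ, Z.card ≤ 2 * d ∧ ∀ z : ℂ, ‖z‖ = r → (f z).re = 0 → z ∈ Z := by
  classical
  obtain ⟨U, V, hU, hV, hf⟩ := h
  have hr0 : 0 < r := by linarith
  set W : ℂ[X] := U * sharp d r V + V * sharp d r U with hW
  have hWd : W.natDegree ≤ 2 * d := by
    refine (natDegree_add_le _ _).trans (max_le ?_ ?_)
    · refine natDegree_mul_le.trans ?_
      have := sharp_natDegree d r V hV
      omega
    · refine natDegree_mul_le.trans ?_
      have := sharp_natDegree d r U hU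
      omega
  have key : ∀ z : ℂ, ‖z‖ = r → ((f z).re = 0 ↔ W.eval z = 0) := by
    intro z hz
    have hz1 : 1 < ‖z‖ := by rw [hz]; exact hr
    have hz0 : z ≠ 0 := by
      intro h; rw [h, norm_zero] at hz; exact hr0.ne hz
    obtain ⟨hV0, hfz⟩ := hf z hz1
    have e1 : W.eval z = z ^ d * (U.eval z * (starRingEnd ℂ) (V.eval z) +
        (starRingEnd ℂ) (U.eval z * (starRingEnd ℂ) (V.eval z))) := by
      rw [hW, eval_add, eval_mul, eval_mul, sharp_eval d r hr0 V hV z hz,
        sharp_eval d r hr0 U hU z hz, map_mul, Complex.conj_conj]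
      ring
    rw [Complex.add_conj] at e1
    have e2 : (f z).re * Complex.normSq (V.eval z) =
        (U.eval z * (starRingEnd ℂ) (V.eval z)).re := by
      rw [hfz]
      have hns : (Complex.normSq (V.eval z) : ℂ) = V.eval z * (starRingEnd ℂ) (V.eval z) :=
        (Complex.mul_conj _).symm
      have : U.eval z * (starRingEnd ℂ) (V.eval z) =
          (U.eval z / V.eval z) * (Complex.normSq (V.eval z) : ℂ) := by
        rw [hns]; field_simp
      rw [this, Complex.re_mul_ofReal]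
    have hns0 : Complex.normSq (V.eval z) ≠ 0 := by
      rwa [Ne, Complex.normSq_eq_zero]
    constructor
    · intro h0
      rw [h0, zero_mul] at e2
      rw [e1, ← e2]; simp
    · intro h0
      rw [e1] at h0
      rcases mul_eq_zero.1 h0 with h1 | h1
      · exact absurd h1 (pow_ne_zero _ hz0)
      · have h2 : (U.eval z * (starRingEnd ℂ) (V.eval z)).re = 0 := by
          have h3 : (2 : ℝ) * (U.eval z * (starRingEnd ℂ) (V.eval z)).re = 0 := by
            exact_mod_cast h1
          linarith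
        rw [h2] at e2
        exact (mul_eq_zero.1 e2).resolve_right hns0
  by_cases hW0 : W = 0
  · left
    intro z hz
    rw [key z hz, hW0, eval_zero]
  · right
    refine ⟨W.roots.toFinset, ?_, fun z hz h0 => ?_⟩
    · exact (Multiset.toFinset_card_le _).trans ((card_roots' W).trans hWd)
    · rw [Multiset.mem_toFinset, mem_roots hW0]
      exact (key z hz).1 h0

end Pool.Agent.H612K
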