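import Pool.Agent.H612K.K9

/-!
# Kreiss condition, part 10: geometry of the grid
-/

open scoped InnerProductSpace
open Finset

namespace Pool.Agent.H612K

/-- the grid on the circle of radius `1 + 1/M` -/
noncomputable def zz (M : ℕ) (θ : ℝ) (j : ℕ) : ℂ :=
  ((1 + 1 / (M : ℝ) : ℝ) : ℂ) * Complex.exp ((θ + j * (2 * Real.pi / M) : ℝ) * Complex.I)

theorem zz_norm {M : ℕ} (hM : 0 < M) (θ : ℝ) (j : ℕ) : ‖zz M θ j‖ = 1 + 1 / (M : ℝ) := by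
  unfold zz
  have : (0 : ℝ) < M := by exact_mod_cast hM
  rw [norm_mul, Complex.norm_exp_ofReal_mul_I, mul_one, Complex.norm_real, Real.norm_eq_abs,
    abs_of_pos (by positivity)]

set_option maxHeartbeats 1000000 in
theorem geo {k : ℕ} (hk : 2 ≤ k) {s₀ : ℝ}
    (hs₀ : s₀ = 1 / (51200 * k)) {M : ℕ} (hM : 0 < M) (θ : ℝ)
    (S : Finset ℕ) (D : ℕ) (hD : ∀ i ∈ S, ∀ j ∈ S, j ≤ i + D) (hDM : D * (204800 * k) ≤ M)
    (i w : ℕ) (hmw : 51200 * k ≤ w) (hwD : w ≤ D) (hne1 : ∃ j ∈ S, |nn i w j| ≤ w) :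
    ∃ (e : ℂ) (L : ℝ), ‖e‖ = 1 ∧ 0 < L ∧ 3 * w * (1 / (M : ℝ)) ≤ L ∧
      (∀ j, ((1 + L : ℝ) : ℂ) * e - zz M θ j ≠ 0) ∧
      (∀ j, ‖((L : ℂ) * e) / (((1 + L : ℝ) : ℂ) * e - zz M θ j)‖ ^ 2 ≤ 1.03) ∧
      (∀ j, |‖((L : ℂ) * e) / (((1 + L : ℝ) : ℂ) * e - zz M θ j)‖ ^ 2 +
        ‖1 - ((L : ℂ) * e) / (((1 + L : ℝ) : ℂ) * e - zz M θ j)‖ ^ 2 - 1| ≤ s₀) ∧
      (∀ j ∈ S, |nn i w j| ≤ w →
        0.49 ≤ ‖((L : ℂ) * e) / (((1 + L : ℝ) : ℂ) * e - zz M θ j)‖ ^ 2) ∧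
      (∀ j ∈ S, ¬ |nn i w j| ≤ 2 * w →
        ‖((L : ℂ) * e) / (((1 + L : ℝ) : ℂ) * e - zz M θ j)‖ ^ 2 ≤ 0.39) ∧
      ∑ j ∈ S, ‖((L : ℂ) * e) / (((1 + L : ℝ) : ℂ) * e - zz M θ j)‖ ^ 2 ≤ 10 * w := by
  classical
  have hkR : (2 : ℝ) ≤ k := by exact_mod_cast hk
  have hMR : (0 : ℝ) < M := by exact_mod_cast hM
  have hs0pos : 0 < s₀ := by rw [hs₀]; positivity
  have hs0small : s₀ ≤ 1 / 102400 := by
    rw [hs₀, div_le_div_iff₀ (by positivity) (by norm_num)]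
    linarith
  have hs0k : s₀ * (51200 * k) = 1 := by rw [hs₀]; field_simp
  set σ : ℝ := 1 / (M : ℝ) with hσ
  have hσ0 : 0 < σ := by rw [hσ]; positivity
  have hm1 : 1 ≤ 51200 * k := by omega
  -- parameters
  have hpi := Real.pi_pos
  have hpi3 := Real.pi_gt_three
  have hpi4 : Real.pi < 3.15 := Real.pi_lt_d2
  have hwm : (51200 : ℝ) * k ≤ w := by exact_mod_cast hmw
  have hw0 : (0 : ℝ) < w := by nlinarith
  have hwM : (w : ℝ) * (204800 * k) ≤ M := by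
    have : w * (204800 * k) ≤ M := (Nat.mul_le_mul_right _ hwD).trans hDM
    exact_mod_cast this
  set L : ℝ := Real.pi * w * σ with hL
  have hL0 : 0 < L := by rw [hL]; positivity
  have hwσ : (w : ℝ) * σ * (204800 * k) ≤ 1 := by
    rw [hσ]
    have : (w : ℝ) * (1 / M) * (204800 * k) = (w * (204800 * k)) / M := by ring
    rw [this, div_le_one hMR]
    exact hwM
  have hLs : L ≤ s₀ := by
    have h1 : L * (51200 * k) ≤ 1 := by
      rw [hL]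
      have : Real.pi * w * σ * (51200 * k) = (Real.pi / 4) * (w * σ * (204800 * k)) := by ring
      rw [this]
      have h0 : 0 ≤ (w : ℝ) * σ * (204800 * k) := by positivity
      nlinarith
    have hk0 : (0 : ℝ) < 51200 * k := by positivity
    nlinarith
  have hL100 : 100 * σ ≤ L := by
    rw [hL]
    have : (100 : ℝ) ≤ Real.pi * w := by nlinarith
    nlinarith
  have hL1 : L ≤ 1 / 100 := by linarith
  have h21 : 2.1 * σ ≤ s₀ * L := by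
    have h1 : 1 ≤ s₀ * w := by
      rw [← hs0k]
      exact mul_le_mul_of_nonneg_left hwm hs0pos.le
    have h2 : s₀ * L = Real.pi * (s₀ * w) * σ := by rw [hL]; ring
    rw [h2]
    have : (2.1 : ℝ) ≤ Real.pi * (s₀ * w) := by nlinarith
    exact mul_le_mul_of_nonneg_right this hσ0.le
  set t : ℕ → ℝ := fun j => Real.pi * σ * ((nn i w j : ℤ) : ℝ) with ht
  set α : ℝ := θ + (2 * i + w) * (Real.pi * σ) with hα
  set e : ℂ := Complex.exp (α * Complex.I) with he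
  have hen : ‖e‖ = 1 := Complex.norm_exp_ofReal_mul_I α
  have hzj : ∀ j, zz M θ j = ((1 + σ : ℝ) : ℂ) * (e * Complex.exp (t j * Complex.I)) := by
    intro j
    unfold zz
    rw [he, ← Complex.exp_add]
    congr 2
    rw [← add_mul]
    congr 1
    rw [hα, ht, hσ]
    unfold nn
    push_cast
    field_simp
    ring
  set z₀ : ℂ := ((1 + L : ℝ) : ℂ) * e with hz₀
  set u : ℕ → ℝ := fun j => 2 * (1 - Real.cos (t j)) with hu
  have hu0 : ∀ j, 0 ≤ u j := by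
    intro j
    simp only [hu]
    have := Real.cos_le_one (t j)
    linarith
  have hdist : ∀ j, ‖z₀ - zz M θ j‖ ^ 2 = DD L σ (u j) := by
    intro j
    rw [hzj, hz₀, ← normSq_DD]
    have : ((1 + L : ℝ) : ℂ) * e - ((1 + σ : ℝ) : ℂ) * (e * Complex.exp (t j * Complex.I)) =
        e * (((1 + L : ℝ) : ℂ) - ((1 + σ : ℝ) : ℂ) * Complex.exp (t j * Complex.I)) := by ring
    rw [this, norm_mul, hen, one_mul]
  have hdist2 : ∀ j, ‖e - zz M θ j‖ ^ 2 = σ ^ 2 + (1 + σ) * u j := by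
    intro j
    have h1 := normSq_DD 0 σ (t j)
    rw [hzj]
    have h2 : e - ((1 + σ : ℝ) : ℂ) * (e * Complex.exp (t j * Complex.I)) =
        e * (((1 + 0 : ℝ) : ℂ) - ((1 + σ : ℝ) : ℂ) * Complex.exp (t j * Complex.I)) := by
      push_cast; ring
    rw [h2, norm_mul, hen, one_mul, h1]
    unfold DD
    simp only [hu]
    ring
  have hDDpos : ∀ j, 0 < DD L σ (u j) := by
    intro j
    have := DD_pos hσ0 hL100 (hu0 j)
    nlinarith [sq_pos_of_pos hL0, hu0 j]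
  have hne : ∀ j, z₀ - zz M θ j ≠ 0 := by
    intro j h0
    have := hdist j
    rw [h0, norm_zero] at this
    have h1 := hDDpos j
    rw [← this] at h1
    norm_num at h1
  set F1 : ℕ → ℂ := fun j => ((L : ℂ) * e) / (z₀ - zz M θ j) with hF1
  set F2 : ℕ → ℂ := fun j => (e - zz M θ j) / (z₀ - zz M θ j) with hF2
  have hF12 : ∀ j, F1 j + F2 j = 1 := by
    intro j
    simp only [hF1, hF2]
    rw [← add_div, div_eq_one_iff_eq (hne j), hz₀]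
    push_cast
    ring
  have hF1sq : ∀ j, ‖F1 j‖ ^ 2 = c1 L σ (u j) := by
    intro j
    simp only [hF1]
    rw [norm_div, div_pow, hdist, norm_mul, hen, mul_one, Complex.norm_real, Real.norm_eq_abs,
      sq_abs]
    rfl
  have hF2sq : ∀ j, ‖F2 j‖ ^ 2 = c2 L σ (u j) := by
    intro j
    simp only [hF2]
    rw [norm_div, div_pow, hdist, hdist2]
    rfl
  -- positions
  have htpi : ∀ j ∈ S, |t j| ≤ Real.pi := by
    intro j hj
    obtain ⟨j₀, hj₀S, hj₀n⟩ := hne1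
    have d1 := hD j hj j₀ hj₀S
    have d2 := hD j₀ hj₀S j hj
    have hnM : |nn i w j| ≤ (M : ℤ) := by
      unfold nn at hj₀n ⊢
      rw [abs_le] at hj₀n ⊢
      have h3D : 3 * D ≤ M := by
        calc 3 * D ≤ D * (204800 * k) := by nlinarith
          _ ≤ M := hDM
      omega
    have hnMR : |((nn i w j : ℤ) : ℝ)| ≤ M := by exact_mod_cast hnM
    simp only [ht]
    rw [abs_mul, abs_of_pos (by positivity : 0 < Real.pi * σ)]
    have : Real.pi * σ * (M : ℝ) = Real.pi := by rw [hσ]; field_simp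
    calc Real.pi * σ * |((nn i w j : ℤ) : ℝ)| ≤ Real.pi * σ * M :=
          mul_le_mul_of_nonneg_left hnMR (by positivity)
      _ = Real.pi := this
  have hulow : ∀ j ∈ S, 4 * σ ^ 2 * ((nn i w j : ℤ) : ℝ) ^ 2 ≤ u j := by
    intro j hj
    have h1 := Real.cos_le_one_sub_mul_cos_sq (htpi j hj)
    simp only [hu]
    have h2 : 2 / Real.pi ^ 2 * (t j) ^ 2 = 2 * σ ^ 2 * ((nn i w j : ℤ) : ℝ) ^ 2 := by
      simp only [ht]; field_simp
    rw [h2] at h1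
    linarith
  have huup : ∀ j, u j ≤ (t j) ^ 2 := by
    intro j
    have h1 := Real.one_sub_sq_div_two_le_cos (x := t j)
    simp only [hu]
    linarith
  have hc1up : ∀ j ∈ S, c1 L σ (u j) ≤ 2.5 * ((w : ℝ) ^ 2 / ((w : ℝ) ^ 2 +
      ((nn i w j : ℤ) : ℝ) ^ 2)) := by
    intro j hj
    have h1 := DD_pos hσ0 hL100 (hu0 j)
    have h2 := hulow j hj
    unfold c1
    rw [mul_div_assoc', div_le_div_iff₀ (hDDpos j) (by positivity)]
    have h3 : L ^ 2 = Real.pi ^ 2 * (w ^ 2 * σ ^ 2) := by rw [hL]; ring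
    have hpi2 : Real.pi ^ 2 ≤ 9.9225 := by nlinarith
    have hpi2' : 9 ≤ Real.pi ^ 2 := by nlinarith
    have h4 : 4 * σ ^ 2 * ((w : ℝ) ^ 2 + ((nn i w j : ℤ) : ℝ) ^ 2) ≤ DD L σ (u j) := by
      have : 4 * (w ^ 2 * σ ^ 2) ≤ 0.98 * L ^ 2 := by
        rw [h3]
        have : 0 ≤ (w : ℝ) ^ 2 * σ ^ 2 := by positivity
        nlinarith
      nlinarith
    have h5 : L ^ 2 * ((w : ℝ) ^ 2 + ((nn i w j : ℤ) : ℝ) ^ 2) ≤
        2.5 * (w : ℝ) ^ 2 * (4 * σ ^ 2 * ((w : ℝ) ^ 2 + ((nn i w j : ℤ) : ℝ) ^ 2)) := by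
      rw [h3]
      have h6 : 0 ≤ (w : ℝ) ^ 2 * σ ^ 2 * ((w : ℝ) ^ 2 + ((nn i w j : ℤ) : ℝ) ^ 2) := by positivity
      nlinarith
    calc _ ≤ _ := h5
      _ ≤ 2.5 * (w : ℝ) ^ 2 * DD L σ (u j) := mul_le_mul_of_nonneg_left h4 (by positivity)
  have hF2e : ∀ j, 1 - F1 j = F2 j := by
    intro j; rw [← hF12 j]; ring
  refine ⟨e, L, hen, hL0, ?_, hne, ?_, ?_, ?_, ?_, ?_⟩
  · rw [hL]
    have : 0 ≤ (w : ℝ) * σ := by positivity
    nlinarith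
  · intro j
    show ‖F1 j‖ ^ 2 ≤ 1.03
    rw [hF1sq]
    exact c1_le hσ0 hL100 (hu0 j)
  · intro j
    show |‖F1 j‖ ^ 2 + ‖1 - F1 j‖ ^ 2 - 1| ≤ s₀
    rw [hF2e, hF1sq, hF2sq]
    exact c12 hσ0 hL100 hLs h21 (hu0 j)
  · intro j _ hj
    show 0.49 ≤ ‖F1 j‖ ^ 2
    rw [hF1sq]
    refine c1_ge hσ0 hL100 hL1 (hu0 j) ?_
    refine (huup j).trans ?_
    have h1 : |((nn i w j : ℤ) : ℝ)| ≤ w := by exact_mod_cast hj
    have h2 : (t j) ^ 2 = (Real.pi * σ) ^ 2 * |((nn i w j : ℤ) : ℝ)| ^ 2 := by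
      simp only [ht]; rw [sq_abs]; ring
    have h3 : L ^ 2 = (Real.pi * σ) ^ 2 * (w : ℝ) ^ 2 := by rw [hL]; ring
    rw [h2, h3]
    exact mul_le_mul_of_nonneg_left (pow_le_pow_left₀ (abs_nonneg _) h1 2) (by positivity)
  · intro j hjS hj
    show ‖F1 j‖ ^ 2 ≤ 0.39
    rw [hF1sq]
    refine c1_le_far hσ0 hL100 ?_
    refine le_trans ?_ (hulow j hjS)
    rw [not_le] at hj
    have h1 : 2 * (w : ℝ) < |((nn i w j : ℤ) : ℝ)| := by exact_mod_cast hj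
    have h2 : (2 * (w : ℝ)) ^ 2 ≤ |((nn i w j : ℤ) : ℝ)| ^ 2 :=
      pow_le_pow_left₀ (by positivity) h1.le 2
    rw [sq_abs] at h2
    have h3 : L ^ 2 = Real.pi ^ 2 * (σ ^ 2 * (w : ℝ) ^ 2) := by rw [hL]; ring
    rw [h3]
    have hpi2 : Real.pi ^ 2 ≤ 9.9225 := by nlinarith
    have h4 : 0 ≤ σ ^ 2 * (w : ℝ) ^ 2 := by positivity
    have h5 : 4 * σ ^ 2 * (4 * (w : ℝ) ^ 2) ≤ 4 * σ ^ 2 * ((nn i w j : ℤ) : ℝ) ^ 2 := by
      refine mul_le_mul_of_nonneg_left ?_ (by positivity)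
      nlinarith
    nlinarith
  · show ∑ j ∈ S, ‖F1 j‖ ^ 2 ≤ 10 * w
    calc ∑ j ∈ S, ‖F1 j‖ ^ 2 ≤ ∑ j ∈ S, 2.5 * ((w : ℝ) ^ 2 / ((w : ℝ) ^ 2 +
          ((nn i w j : ℤ) : ℝ) ^ 2)) := by
          refine Finset.sum_le_sum fun j hj => ?_
          rw [hF1sq]
          exact hc1up j hj
      _ = 2.5 * ∑ j ∈ S, ((w : ℝ) ^ 2 / ((w : ℝ) ^ 2 +
          ((nn i w j : ℤ) : ℝ) ^ 2)) := by rw [Finset.mul_sum]
      _ ≤ 2.5 * (4 * w) := mul_le_mul_of_nonneg_left (sum_nn S i w (hm1.trans hmw))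
          (by norm_num)
      _ = 10 * w := by ring

end Pool.Agent.H612K
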