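import Pool.Agent.H612K.K10

/-!
# Kreiss condition, part 11: the core contradiction for the resolvent
-/

open scoped InnerProductSpace
open Finset

namespace Pool.Agent.H612K

variable {E : Type*} [NormedAddCommGroup E] [InnerProductSpace ℂ E]
variable {T : E →L[ℂ] E} {K : ℝ} {R : ℂ → E →L[ℂ] E}

theorem KR.aj_le (h : KR T K R) {M : ℕ} (hM : 0 < M) (θ : ℝ) (j : ℕ) (x : E) :
    (1 / (M : ℝ)) * ‖R (zz M θ j) x‖ ≤ K * ‖x‖ := by
  have hMR : (0 : ℝ) < M := by exact_mod_cast hM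
  have hn := zz_norm hM θ j
  have h1 : 1 < ‖zz M θ j‖ := by rw [hn]; have : 0 < 1 / (M : ℝ) := by positivity
                                 linarith
  have h2 := h.bound' h1 x
  rw [hn] at h2
  have h3 : (1 / (M : ℝ)) * ‖R (zz M θ j) x‖ ≤
      (1 / (M : ℝ)) * (K / (1 + 1 / (M : ℝ) - 1) * ‖x‖) :=
    mul_le_mul_of_nonneg_left h2 (by positivity)
  have h4 : (1 / (M : ℝ)) * (K / (1 + 1 / (M : ℝ) - 1) * ‖x‖) = K * ‖x‖ := by
    have : 1 + 1 / (M : ℝ) - 1 = 1 / M := by ring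
    rw [this]; field_simp
  linarith

/-- the two pieces of the splitting, seen through the resolvent at `z` -/
theorem KR.split (h : KR T K R) {z z₀ : ℂ} (hz : 1 < ‖z‖) (hz₀ : 1 < ‖z₀‖) (hne : z₀ - z ≠ 0)
    (c : ℂ) {σ : ℝ} (hσ : 0 < σ) (x : E) :
    ‖c / (z₀ - z)‖ ^ 2 * ((σ * ‖R z x‖) ^ 2 - 2 * (σ * ‖R z x‖) * (σ * ‖R z₀ x‖)) ≤
      (σ * ‖R z (c • R z₀ x)‖) ^ 2 ∧
    ‖1 - c / (z₀ - z)‖ ^ 2 * (σ * ‖R z x‖) ^ 2 -
      2 * (‖c / (z₀ - z)‖ * ‖1 - c / (z₀ - z)‖) * ((σ * ‖R z x‖) * (σ * ‖R z₀ x‖)) ≤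
      (σ * ‖R z (x - c • R z₀ x)‖) ^ 2 := by
  set F1 : ℂ := c / (z₀ - z) with hF1
  set v : E := R z₀ x with hv
  have hRv : (z₀ - z) • R z v = R z x - v := by rw [hv, ← h.res_id hz hz₀]
  have hR1 : R z (c • v) = F1 • (R z x - v) := by
    rw [map_smul, ← hRv, smul_smul, hF1, div_mul_cancel₀ _ hne]
  have hR2 : R z (x - c • v) = (1 - F1) • R z x + F1 • v := by
    rw [map_sub, hR1, sub_smul, one_smul, smul_sub]
    abel
  clear_value v F1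
  constructor
  · rw [hR1, norm_smul]
    have h1 := abs_norm_sub_norm_le (R z x) v
    have h2 : (‖R z x‖ - ‖v‖) ^ 2 ≤ ‖R z x - v‖ ^ 2 := by
      rw [← sq_abs (‖R z x‖ - ‖v‖)]
      exact pow_le_pow_left₀ (abs_nonneg _) h1 2
    have h3 : (σ * (‖F1‖ * ‖R z x - v‖)) ^ 2 =
        ‖F1‖ ^ 2 * (σ ^ 2 * ‖R z x - v‖ ^ 2) := by ring
    rw [h3]
    refine mul_le_mul_of_nonneg_left ?_ (sq_nonneg _)
    have h4 : (σ * ‖R z x‖) ^ 2 - 2 * (σ * ‖R z x‖) * (σ * ‖v‖) ≤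
        σ ^ 2 * (‖R z x‖ - ‖v‖) ^ 2 := by
      have := sq_nonneg (σ * ‖v‖)
      linarith
    exact h4.trans (mul_le_mul_of_nonneg_left h2 (sq_nonneg _))
  · rw [hR2]
    have h1 := abs_norm_sub_norm_le ((1 - F1) • R z x) (-(F1 • v))
    rw [norm_neg, sub_neg_eq_add, norm_smul, norm_smul] at h1
    have h2 : (‖1 - F1‖ * ‖R z x‖ - ‖F1‖ * ‖v‖) ^ 2 ≤
        ‖(1 - F1) • R z x + F1 • v‖ ^ 2 := by
      rw [← sq_abs (‖1 - F1‖ * ‖R z x‖ - ‖F1‖ * ‖v‖)]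
      exact pow_le_pow_left₀ (abs_nonneg _) h1 2
    have h3 : ‖1 - F1‖ ^ 2 * (σ * ‖R z x‖) ^ 2 -
        2 * (‖F1‖ * ‖1 - F1‖) * ((σ * ‖R z x‖) * (σ * ‖v‖)) ≤
        σ ^ 2 * (‖1 - F1‖ * ‖R z x‖ - ‖F1‖ * ‖v‖) ^ 2 := by
      have := sq_nonneg (σ * (‖F1‖ * ‖v‖))
      linarith
    rw [mul_pow σ ‖(1 - F1) • R z x + F1 • v‖]
    exact h3.trans (mul_le_mul_of_nonneg_left h2 (sq_nonneg _))

set_option maxHeartbeats 1000000 in
theorem KR.core (h : KR T K R) (hK1 : 1 ≤ K) {k : ℕ} (hk : 2 ≤ k) {s₀ : ℝ}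
    (hs₀ : s₀ = 1 / (51200 * k)) (hKκ : K ^ 2 * (1 - s₀ ^ 2) ≤ 1) {M : ℕ} (hM : 0 < M) (θ : ℝ)
    (S : Finset ℕ) (D : ℕ) (hD : ∀ i ∈ S, ∀ j ∈ S, j ≤ i + D) (hDM : D * (204800 * k) ≤ M)
    (x : E) (hx : ‖x‖ = 1) (g : ℕ → ℝ) (hg0 : ∀ j ∈ S, 0 ≤ g j)
    (hgsum : ∑ j ∈ S, g j ^ k = 1) {Λ : ℝ} (hΛ : 10 ^ 6 * k * K ^ 2 < Λ)
    (hgP : ∀ j ∈ S, g j * ((1 / (M : ℝ)) * ‖R (zz M θ j) x‖) ^ 2 = Λ * g j ^ k)
    (hmax : ∀ g' : ℕ → ℝ, (∀ j ∈ S, 0 ≤ g' j) → ∑ j ∈ S, g' j ^ k ≤ 1 → ∀ y : E,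
      ∑ j ∈ S, g' j * ((1 / (M : ℝ)) * ‖R (zz M θ j) y‖) ^ 2 ≤ Λ * ‖y‖ ^ 2) : False := by
  classical
  have hkR : (2 : ℝ) ≤ k := by exact_mod_cast hk
  have hMR : (0 : ℝ) < M := by exact_mod_cast hM
  have hs0pos : 0 < s₀ := by rw [hs₀]; positivity
  have hs0small : s₀ ≤ 1 / 102400 := by
    rw [hs₀, div_le_div_iff₀ (by positivity) (by norm_num)]
    linarith
  have hs0k : s₀ * (51200 * k) = 1 := by rw [hs₀]; field_simp
  have hΛ0 : 0 < Λ := lt_trans (by positivity) hΛ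
  set σ : ℝ := 1 / (M : ℝ) with hσ
  have hσ0 : 0 < σ := by rw [hσ]; positivity
  set a : ℕ → ℝ := fun j => σ * ‖R (zz M θ j) x‖ with ha
  have ha0 : ∀ j, 0 ≤ a j := fun j => mul_nonneg hσ0.le (norm_nonneg _)
  have haK : ∀ j, a j ≤ K := fun j => by
    have := h.aj_le hM θ j x
    rwa [hx, mul_one] at this
  have hP0 : ∀ j ∈ S, 0 ≤ g j ^ k := fun j hj => pow_nonneg (hg0 j hj) k
  have hg1 : ∀ j ∈ S, g j ≤ 1 := by
    intro j hj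
    by_contra hcon
    rw [not_le] at hcon
    have h1 : 1 < g j ^ k := one_lt_pow₀ hcon (by omega)
    have h2 : g j ^ k ≤ ∑ j ∈ S, g j ^ k := Finset.single_le_sum hP0 hj
    linarith
  have hPle : ∀ j ∈ S, g j ^ k ≤ K ^ 2 / Λ := by
    intro j hj
    rw [le_div_iff₀ hΛ0, mul_comm, ← hgP j hj]
    have h1 : a j ^ 2 ≤ K ^ 2 := pow_le_pow_left₀ (ha0 j) (haK j) 2
    calc g j * a j ^ 2 ≤ 1 * K ^ 2 :=
          mul_le_mul (hg1 j hj) h1 (sq_nonneg _) (by norm_num)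
      _ = K ^ 2 := one_mul _
  -- blocks of length `m` carry little mass
  set m : ℕ := 51200 * k with hm
  have hm1 : 1 ≤ m := by omega
  have hsmall : ∀ i, ∑ j ∈ S.filter (fun j => i ≤ j ∧ j < i + m), g j ^ k < 1 / 8 := by
    intro i
    have hcard : (S.filter (fun j => i ≤ j ∧ j < i + m)).card ≤ m := by
      have hsub : S.filter (fun j => i ≤ j ∧ j < i + m) ⊆ Finset.Ico i (i + m) := by
        intro j hj
        rw [Finset.mem_Ico]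
        exact (mem_filter.1 hj).2
      have := Finset.card_le_card hsub
      rw [Nat.card_Ico] at this
      omega
    have h1 : ∑ j ∈ S.filter (fun j => i ≤ j ∧ j < i + m), g j ^ k ≤
        (S.filter (fun j => i ≤ j ∧ j < i + m)).card • (K ^ 2 / Λ) :=
      Finset.sum_le_card_nsmul _ _ _ fun j hj => hPle j (mem_filter.1 hj).1
    have h2 : ((S.filter (fun j => i ≤ j ∧ j < i + m)).card : ℝ) ≤ m := by exact_mod_cast hcard
    rw [nsmul_eq_mul] at h1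
    have h3 : 0 ≤ K ^ 2 / Λ := by positivity
    have h4 : (m : ℝ) * (K ^ 2 / Λ) < 1 / 8 := by
      rw [mul_div_assoc', div_lt_div_iff₀ hΛ0 (by norm_num)]
      rw [hm]
      push_cast
      have : 0 < (k : ℝ) * K ^ 2 := by positivity
      nlinarith
    calc _ ≤ _ := h1
      _ ≤ (m : ℝ) * (K ^ 2 / Λ) := mul_le_mul_of_nonneg_right h2 h3
      _ < _ := h4
  obtain ⟨i, w, hmw, hwD, hE1, hE2⟩ := block_lemma S (fun j => g j ^ k) hP0 hgsum D hD m hm1 hsmall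
  have hwm : (51200 : ℝ) * k ≤ w := by exact_mod_cast hmw
  have hw0 : (0 : ℝ) < w := by nlinarith
  have hne1 : ∃ j ∈ S, |nn i w j| ≤ w := by
    by_contra hcon
    push Not at hcon
    have : S.filter (fun j => |nn i w j| ≤ w) = ∅ := by
      refine Finset.filter_eq_empty_iff.2 fun j hj => ?_
      exact not_le.2 (hcon j hj)
    rw [this, sum_empty] at hE1
    norm_num at hE1
  obtain ⟨e, L, hen, hL0, hLw, hne, hF1a, hF12, hF1b, hF1c, hF1d⟩ :=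
    geo hk hs₀ hM θ S D hD hDM i w hmw hwD hne1
  set z₀ : ℂ := ((1 + L : ℝ) : ℂ) * e with hz₀
  set c : ℂ := (L : ℂ) * e with hc
  have hz₀n : ‖z₀‖ = 1 + L := by
    rw [hz₀, norm_mul, hen, mul_one, Complex.norm_real, Real.norm_eq_abs,
      abs_of_pos (by linarith)]
  have hz₀1 : 1 < ‖z₀‖ := by rw [hz₀n]; linarith
  have hzj1 : ∀ j, 1 < ‖zz M θ j‖ := by
    intro j; rw [zz_norm hM θ j, ← hσ]; linarith
  -- the weights
  obtain ⟨ψ, V, hV1, hV2, hψb, hψ0, hψc, hgp, hgm⟩ := weights S g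
    (fun j => ‖c / (z₀ - zz M θ j)‖ ^ 2) k hk hg0
    hgsum (fun j _ => sq_nonneg _) (fun j _ => hF1a j)
    (fun j => |nn i w j| ≤ w) (fun j => ¬ |nn i w j| ≤ 2 * w) hE1 hE2 hF1b hF1c
  -- the splitting
  have hκ1 : s₀ < 1 := by linarith
  have hX : (1 - s₀) * (‖c • R z₀ x‖ ^ 2 + ‖x - c • R z₀ x‖ ^ 2) ≤ 1 := by
    have := h.near_orth hs0pos hκ1 hKκ hen hL0 x
    rw [hx, one_pow] at this
    exact this
  have hvn : ‖R z₀ x‖ ≤ K / L := by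
    have h1 := h.bound' hz₀1 x
    rw [hz₀n, hx, mul_one, add_sub_cancel_left] at h1
    exact h1
  set d : ℝ := σ * ‖R z₀ x‖ with hd
  have hd0 : 0 ≤ d := mul_nonneg hσ0.le (norm_nonneg _)
  have hdw : d * (3 * w) ≤ K := by
    have h2 : d * (3 * w) = (3 * w * σ) * ‖R z₀ x‖ := by rw [hd]; ring
    rw [h2]
    calc (3 * w * σ) * ‖R z₀ x‖ ≤ L * ‖R z₀ x‖ :=
          mul_le_mul_of_nonneg_right hLw (norm_nonneg _)
      _ ≤ L * (K / L) := mul_le_mul_of_nonneg_left hvn hL0.le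
      _ = K := mul_div_cancel₀ _ hL0.ne'
  have hsp := fun j => h.split (hzj1 j) hz₀1 (hne j) c hσ0 x
  have hεψ : ∀ j ∈ S, |1 / (2 * (k : ℝ)) * ψ j| ≤ 1 := by
    intro j hj
    rw [abs_mul, abs_of_pos (by positivity : (0 : ℝ) < 1 / (2 * k))]
    have h3 : 1 / (2 * (k : ℝ)) ≤ 1 / 4 := by
      rw [div_le_div_iff₀ (by positivity) (by norm_num)]; linarith
    have h4 : (0 : ℝ) < 1 / (2 * k) := by positivity
    nlinarith [hψb j hj, abs_nonneg (ψ j)]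
  have hμ0 : 0 < 1 + 1 / (4 * (k : ℝ)) * V := by
    have : 0 ≤ 1 / (4 * (k : ℝ)) * V := mul_nonneg (by positivity) (by linarith)
    linarith
  have hA1 := hmax _ (fun j hj => div_nonneg (mul_nonneg (hg0 j hj)
    (by linarith [(abs_le.1 (hεψ j hj)).1])) hμ0.le) hgp (c • R z₀ x)
  have hA2 := hmax _ (fun j hj => div_nonneg (mul_nonneg (hg0 j hj)
    (by linarith [(abs_le.1 (hεψ j hj)).2])) hμ0.le) hgm (x - c • R z₀ x)
  have herr : 10 / s₀ * d ^ 2 * ∑ j ∈ S, g j * ‖c / (z₀ - zz M θ j)‖ ^ 2 ≤ s₀ * Λ := by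
    have h1 : ∑ j ∈ S, g j * ‖c / (z₀ - zz M θ j)‖ ^ 2 ≤ 10 * w := by
      refine le_trans (Finset.sum_le_sum fun j hj => ?_) hF1d
      calc g j * ‖c / (z₀ - zz M θ j)‖ ^ 2 ≤ 1 * ‖c / (z₀ - zz M θ j)‖ ^ 2 :=
            mul_le_mul_of_nonneg_right (hg1 j hj) (sq_nonneg _)
        _ = _ := one_mul _
    have h2 : d ^ 2 * (9 * w ^ 2) ≤ K ^ 2 := by
      have := pow_le_pow_left₀ (by positivity) hdw 2
      calc d ^ 2 * (9 * w ^ 2) = (d * (3 * w)) ^ 2 := by ring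
        _ ≤ K ^ 2 := this
    have h3 : d ^ 2 * (10 * w) * (51200 * k) ≤ 1.2 * K ^ 2 := by
      have h4 : d ^ 2 * (10 * w) * (51200 * k) ≤ d ^ 2 * (10 * w) * w :=
        mul_le_mul_of_nonneg_left hwm (by positivity)
      have h5 : d ^ 2 * (10 * w) * w = 10 / 9 * (d ^ 2 * (9 * w ^ 2)) := by ring
      have h6 : 0 ≤ K ^ 2 := sq_nonneg _
      linarith
    have h5 : 10 / s₀ * d ^ 2 * ∑ j ∈ S, g j * ‖c / (z₀ - zz M θ j)‖ ^ 2 ≤
        10 / s₀ * d ^ 2 * (10 * w) := mul_le_mul_of_nonneg_left h1 (by positivity)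
    refine h5.trans ?_
    have h6 : 10 / s₀ = 10 * (51200 * k) := by rw [hs₀]; field_simp
    rw [h6]
    have h7 : 19 * K ^ 2 ≤ s₀ * Λ := by
      have h8 : s₀ * (10 ^ 6 * k * K ^ 2) ≤ s₀ * Λ := mul_le_mul_of_nonneg_left hΛ.le hs0pos.le
      have h9 : s₀ * (10 ^ 6 * k * K ^ 2) = (s₀ * (51200 * k)) * (10 ^ 6 / 51200) * K ^ 2 := by
        ring
      rw [hs0k] at h9
      have h10 : 0 ≤ K ^ 2 := sq_nonneg _
      linarith
    have h11 : 10 * (51200 * (k : ℝ)) * d ^ 2 * (10 * w) =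
        10 * (d ^ 2 * (10 * w) * (51200 * k)) := by ring
    rw [h11]
    have h10 : 0 ≤ K ^ 2 := sq_nonneg _
    linarith
  exact num_final S g a (fun j => ‖c / (z₀ - zz M θ j)‖) (fun j => ‖1 - c / (z₀ - zz M θ j)‖) ψ
    (fun j => (σ * ‖R (zz M θ j) (c • R z₀ x)‖) ^ 2)
    (fun j => (σ * ‖R (zz M θ j) (x - c • R z₀ x)‖) ^ 2) hk
    (Λ := Λ) (V := V) (d := d) (X1 := ‖c • R z₀ x‖ ^ 2) (X2 := ‖x - c • R z₀ x‖ ^ 2) hs₀ hg0 hgsum
    (fun j _ => ha0 j) (fun j _ => norm_nonneg _) (fun j _ => norm_nonneg _)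
    (fun j _ => hF1a j) (fun j _ => hF12 j) hψb hψ0 hψc
    hV1 hV2 hΛ0 hgP (fun j _ => (hsp j).1) (fun j _ => (hsp j).2) hA1 hA2 hX hd0 herr

end Pool.Agent.H612K
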