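import Pool.Agent.H612K.K11

/-!
# Kreiss condition, part 12: the weighted square function bound
-/

open scoped InnerProductSpace
open Finset

namespace Pool.Agent.H612K

variable {E : Type*} [NormedAddCommGroup E] [InnerProductSpace ℂ E]
variable {T : E →L[ℂ] E} {K : ℝ} {R : ℂ → E →L[ℂ] E}

/-- the weighted square function bound on a short arc -/
theorem KR.arc_bound [FiniteDimensional ℂ E] (h : KR T K R) (hK1 : 1 ≤ K) {k : ℕ} (hk : 2 ≤ k)
    {s₀ : ℝ} (hs₀ : s₀ = 1 / (51200 * k)) (hKκ : K ^ 2 * (1 - s₀ ^ 2) ≤ 1) {M : ℕ} (hM : 0 < M)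
    (θ : ℝ) (S : Finset ℕ) (D : ℕ) (hD : ∀ i ∈ S, ∀ j ∈ S, j ≤ i + D)
    (hDM : D * (204800 * k) ≤ M)
    (g' : ℕ → ℝ) (hg'0 : ∀ j ∈ S, 0 ≤ g' j) (hg'1 : ∑ j ∈ S, g' j ^ k ≤ 1) (y : E) :
    ∑ j ∈ S, g' j * ((1 / (M : ℝ)) * ‖R (zz M θ j) y‖) ^ 2 ≤ 10 ^ 6 * k * K ^ 2 * ‖y‖ ^ 2 := by
  classical
  have hkR : (2 : ℝ) ≤ k := by exact_mod_cast hk
  have hMR : (0 : ℝ) < M := by exact_mod_cast hM
  have hk1 : (0 : ℝ) < (k : ℝ) - 1 := by linarith
  have hΛ₀ : 0 < 10 ^ 6 * (k : ℝ) * K ^ 2 := by positivity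
  -- trivial space
  rcases subsingleton_or_nontrivial E with hsub | hnt
  · have hy : y = 0 := Subsingleton.elim _ _
    subst hy
    simp
  set p : ℝ := (k : ℝ) / (k - 1) with hp
  have hp1 : 1 < p := by rw [hp, lt_div_iff₀ hk1]; linarith
  have hp0 : 0 < p := by linarith
  have hconj : (k : ℝ).HolderConjugate p := by
    rw [Real.holderConjugate_iff]
    refine ⟨by linarith, ?_⟩
    rw [hp]
    field_simp
    ring
  set b : E → ℕ → ℝ := fun x j => ((1 / (M : ℝ)) * ‖R (zz M θ j) x‖) ^ 2 with hb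
  have hb0 : ∀ x j, 0 ≤ b x j := fun x j => sq_nonneg _
  set N : E → ℝ := fun x => ∑ j ∈ S, (b x j) ^ p with hN
  have hNcont : Continuous N := by
    rw [hN]
    refine continuous_finsetSum _ fun j _ => ?_
    refine Continuous.rpow_const ?_ fun x => Or.inr hp0.le
    simp only [hb]
    fun_prop
  have hN0 : ∀ x, 0 ≤ N x := fun x => Finset.sum_nonneg fun j _ => Real.rpow_nonneg (hb0 x j) _
  -- maximiser on the sphere
  have : ProperSpace E := FiniteDimensional.proper ℂ E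
  obtain ⟨x₀, hx₀, hmaxx⟩ := (isCompact_sphere (0 : E) 1).exists_isMaxOn
    (Set.nonempty_coe_sort.1 (NormedSpace.sphere_nonempty_rclike ℂ zero_le_one))
    hNcont.continuousOn
  have hx₀n : ‖x₀‖ = 1 := by simpa using hx₀
  set Z : ℝ := N x₀ with hZ
  have hZmax : ∀ x : E, ‖x‖ = 1 → N x ≤ Z := fun x hx => hmaxx (by simpa using hx)
  set Λ : ℝ := Z ^ (1 / p) with hΛ
  have hZ0 : 0 ≤ Z := hN0 x₀
  have hΛ0 : 0 ≤ Λ := Real.rpow_nonneg hZ0 _
  -- Hoelder
  have hunit : ∀ g : ℕ → ℝ, (∀ j ∈ S, 0 ≤ g j) → ∑ j ∈ S, g j ^ k ≤ 1 → ∀ x : E, ‖x‖ = 1 →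
      ∑ j ∈ S, g j * b x j ≤ Λ := by
    intro g hg0 hg1 x hx
    have h1 := Real.inner_le_Lp_mul_Lq_of_nonneg S hconj hg0 (fun j _ => hb0 x j)
    have h2 : (∑ j ∈ S, g j ^ (k : ℝ)) ^ (1 / (k : ℝ)) ≤ 1 := by
      simp only [Real.rpow_natCast]
      refine Real.rpow_le_one (Finset.sum_nonneg fun j hj => pow_nonneg (hg0 j hj) k) hg1
        (by positivity)
    have h3 : (∑ j ∈ S, b x j ^ p) ^ (1 / p) ≤ Λ :=
      Real.rpow_le_rpow (hN0 x) (hZmax x hx) (by positivity)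
    calc _ ≤ _ := h1
      _ ≤ 1 * Λ := mul_le_mul h2 h3 (Real.rpow_nonneg (hN0 x) _) (by norm_num)
      _ = Λ := one_mul _
  have hall : ∀ g : ℕ → ℝ, (∀ j ∈ S, 0 ≤ g j) → ∑ j ∈ S, g j ^ k ≤ 1 → ∀ y : E,
      ∑ j ∈ S, g j * b y j ≤ Λ * ‖y‖ ^ 2 := by
    intro g hg0 hg1 y
    by_cases hy : y = 0
    · subst hy
      simp [hb]
    have hyn : 0 < ‖y‖ := norm_pos_iff.2 hy
    set u : E := ((‖y‖⁻¹ : ℝ) : ℂ) • y with hu
    have hun : ‖u‖ = 1 := by
      rw [hu, norm_smul, Complex.norm_real, norm_inv, norm_norm, inv_mul_cancel₀ hyn.ne']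
    have h1 := hunit g hg0 hg1 u hun
    have h2 : ∀ j, b y j = ‖y‖ ^ 2 * b u j := by
      intro j
      simp only [hb, hu]
      rw [map_smul, norm_smul, Complex.norm_real, norm_inv, norm_norm]
      field_simp
    have h3 : ∑ j ∈ S, g j * b y j = ‖y‖ ^ 2 * ∑ j ∈ S, g j * b u j := by
      rw [Finset.mul_sum]
      exact Finset.sum_congr rfl fun j _ => by rw [h2]; ring
    rw [h3, mul_comm Λ]
    exact mul_le_mul_of_nonneg_left h1 (sq_nonneg _)
  -- it suffices to bound `Λ`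
  have hgoal : Λ ≤ 10 ^ 6 * k * K ^ 2 := by
    by_contra hcon
    rw [not_le] at hcon
    have hΛpos : 0 < Λ := lt_trans hΛ₀ hcon
    have hZpos : 0 < Z := by
      rcases hZ0.eq_or_lt with h0 | h0
      · exfalso
        rw [hΛ, ← h0, Real.zero_rpow (by positivity)] at hΛpos
        exact lt_irrefl _ hΛpos
      · exact h0
    set P : ℕ → ℝ := fun j => b x₀ j ^ p / Z with hP
    have hP0 : ∀ j, 0 ≤ P j := fun j => div_nonneg (Real.rpow_nonneg (hb0 x₀ j) _) hZ0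
    have hPsum : ∑ j ∈ S, P j = 1 := by
      simp only [hP]
      rw [← Finset.sum_div]
      exact div_self hZpos.ne'
    set g : ℕ → ℝ := fun j => P j ^ (1 / (k : ℝ)) with hg
    have hg0 : ∀ j, 0 ≤ g j := fun j => Real.rpow_nonneg (hP0 j) _
    have hgk : ∀ j, g j ^ k = P j := by
      intro j
      simp only [hg]
      rw [← Real.rpow_natCast, ← Real.rpow_mul (hP0 j), one_div_mul_cancel (by positivity),
        Real.rpow_one]
    have hgb : ∀ j, g j * b x₀ j = Λ * g j ^ k := by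
      intro j
      rw [hgk]
      rcases (hb0 x₀ j).eq_or_lt with h0 | h0
      · have : P j = 0 := by
          simp only [hP]
          rw [← h0, Real.zero_rpow hp0.ne', zero_div]
        rw [← h0, this]; simp
      · set B := b x₀ j with hB
        have hPj : P j = B ^ p / Z := rfl
        have e1 : g j = B ^ (p / k) / Z ^ (1 / (k : ℝ)) := by
          simp only [hg]
          rw [hPj, Real.div_rpow (Real.rpow_nonneg h0.le _) hZ0, ← Real.rpow_mul h0.le]
          congr 2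
          ring
        have e2 : B ^ (p / k) * B = B ^ p := by
          nth_rewrite 2 [← Real.rpow_one B]
          rw [← Real.rpow_add h0]
          congr 1
          rw [hp]
          field_simp
          ring
        have e3 : Z ^ (1 / p) * Z ^ (1 / (k : ℝ)) = Z := by
          rw [← Real.rpow_add hZpos]
          have : 1 / p + 1 / (k : ℝ) = 1 := by
            rw [hp]; field_simp; ring
          rw [this, Real.rpow_one]
        have hZk : Z ^ (1 / (k : ℝ)) ≠ 0 := (Real.rpow_pos_of_pos hZpos _).ne'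
        rw [e1, hPj, hΛ, div_mul_eq_mul_div, e2, div_eq_iff hZk]
        calc B ^ p = (B ^ p / Z) * Z := by field_simp
          _ = (B ^ p / Z) * (Z ^ (1 / p) * Z ^ (1 / (k : ℝ))) := by rw [e3]
          _ = _ := by ring
    exact h.core hK1 hk hs₀ hKκ hM θ S D hD hDM x₀ hx₀n g (fun j _ => hg0 j)
      (by rw [← hPsum]; exact Finset.sum_congr rfl fun j _ => hgk j) hcon
      (fun j _ => hgb j) hall
  calc _ ≤ Λ * ‖y‖ ^ 2 := hall g' hg'0 hg'1 y
    _ ≤ _ := mul_le_mul_of_nonneg_right hgoal (sq_nonneg _)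

end Pool.Agent.H612K
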