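import Pool.Agent.H612K.K2

/-!
# Kreiss condition, part 4: powers as Fourier coefficients of the resolvent
-/

open scoped InnerProductSpace Interval
open Polynomial MeasureTheory

namespace Pool.Agent.H612K

variable {E : Type*} [NormedAddCommGroup E] [InnerProductSpace ℂ E]
variable {T : E →L[ℂ] E} {K : ℝ} {R : ℂ → E →L[ℂ] E}

theorem RatD.differentiableAt {d : ℕ} {f : ℂ → ℂ} (h : RatD d f) {z : ℂ} (hz : 1 < ‖z‖) :
    DifferentiableAt ℂ f z := by
  obtain ⟨U, V, hU, hV, hf⟩ := h
  have h1 : f =ᶠ[nhds z] fun w => U.eval w / V.eval w := by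
    have ho : IsOpen {w : ℂ | 1 < ‖w‖} := isOpen_lt continuous_const continuous_norm
    filter_upwards [ho.mem_nhds hz] with w hw
    exact (hf w hw).2
  refine DifferentiableAt.congr_of_eventuallyEq ?_ h1
  exact U.differentiable.differentiableAt.div V.differentiable.differentiableAt (hf z hz).1

theorem norm_circ {r : ℝ} (hr : 0 < r) (t : ℝ) :
    ‖(r : ℂ) * Complex.exp (t * Complex.I)‖ = r := by
  rw [norm_mul, Complex.norm_exp_ofReal_mul_I, mul_one, Complex.norm_real, Real.norm_eq_abs,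
    abs_of_pos hr]

theorem RatD.continuous_circ {d : ℕ} {f : ℂ → ℂ} (h : RatD d f) {r : ℝ} (hr : 1 < r) :
    Continuous fun t : ℝ => f (r * Complex.exp (t * Complex.I)) := by
  rw [continuous_iff_continuousAt]
  intro t
  have h1 : 1 < ‖(r : ℂ) * Complex.exp (t * Complex.I)‖ := by
    rw [norm_circ (by linarith)]; exact hr
  have h2 := (h.differentiableAt h1).continuousAt
  have h3 : ContinuousAt (fun t : ℝ => (r : ℂ) * Complex.exp (t * Complex.I)) t := by fun_prop
  exact ContinuousAt.comp (f := fun t : ℝ => (r : ℂ) * Complex.exp (t * Complex.I)) h2 h3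

theorem RatD.mean_eq {d : ℕ} {f : ℂ → ℂ} (h : RatD d f) {r r' : ℝ} (hr : 1 < r)
    (hr' : r ≤ r') :
    ∫ t in (0 : ℝ)..2 * Real.pi, f (r * Complex.exp (t * Complex.I)) =
      ∫ t in (0 : ℝ)..2 * Real.pi, f (r' * Complex.exp (t * Complex.I)) := by
  have key : ∀ ρ : ℝ, 1 < ρ → (∮ z in C(0, ρ), (z - 0)⁻¹ • f z) =
      Complex.I * ∫ t in (0 : ℝ)..2 * Real.pi, f (ρ * Complex.exp (t * Complex.I)) := by
    intro ρ hρ
    rw [circleIntegral, ← intervalIntegral.integral_const_mul]
    refine intervalIntegral.integral_congr fun t _ => ?_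
    have hne : circleMap 0 ρ t ≠ 0 := by
      rw [circleMap_zero]
      exact mul_ne_zero (by exact_mod_cast (by linarith : ρ ≠ 0)) (Complex.exp_ne_zero _)
    simp only [deriv_circleMap, sub_zero, smul_eq_mul]
    have e : circleMap 0 ρ t = ρ * Complex.exp (t * Complex.I) := circleMap_zero ρ t
    rw [← e]
    field_simp
  have h1 := Complex.circleIntegral_sub_center_inv_smul_eq_of_differentiable_on_annulus_off_countable
    (c := 0) (r := r) (R := r') (by linarith) hr' (f := f) (s := ∅) Set.countable_empty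
    (by
      intro z hz
      refine (h.differentiableAt ?_).continuousAt.continuousWithinAt
      have := hz.2
      rw [Metric.mem_ball, dist_zero_right, not_lt] at this
      linarith)
    (by
      intro z hz
      refine h.differentiableAt ?_
      have := hz.1.2
      rw [Metric.mem_closedBall, dist_zero_right, not_le] at this
      linarith)
  rw [key r hr, key r' (by linarith)] at h1
  exact (mul_left_cancel₀ Complex.I_ne_zero h1).symm

theorem RatD.mean_zero {d : ℕ} {f : ℂ → ℂ} (h : RatD d f) {C : ℝ}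
    (hC : ∀ z : ℂ, 1 < ‖z‖ → ‖f z‖ ≤ C / (‖z‖ - 1)) {r : ℝ} (hr : 1 < r) :
    ∫ t in (0 : ℝ)..2 * Real.pi, f (r * Complex.exp (t * Complex.I)) = 0 := by
  set I₀ := ∫ t in (0 : ℝ)..2 * Real.pi, f (r * Complex.exp (t * Complex.I)) with hI
  have hb : ∀ r' : ℝ, r ≤ r' → ‖I₀‖ ≤ C / (r' - 1) * (2 * Real.pi) := by
    intro r' hr'
    rw [hI, h.mean_eq hr hr']
    have h1 := intervalIntegral.norm_integral_le_of_norm_le_const
      (a := (0 : ℝ)) (b := 2 * Real.pi) (C := C / (r' - 1))
      (f := fun t : ℝ => f (r' * Complex.exp (t * Complex.I))) (by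
        intro t _
        have h2 : ‖(r' : ℂ) * Complex.exp (t * Complex.I)‖ = r' := norm_circ (by linarith) t
        have h3 := hC (r' * Complex.exp (t * Complex.I)) (by rw [h2]; linarith)
        rwa [h2] at h3)
    rwa [sub_zero, abs_of_pos (by positivity)] at h1
  have hlim : Filter.Tendsto (fun r' : ℝ => C / (r' - 1) * (2 * Real.pi)) Filter.atTop
      (nhds (0 * (2 * Real.pi))) := by
    refine Filter.Tendsto.mul_const _ ?_
    refine Filter.Tendsto.div_atTop tendsto_const_nhds ?_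
    exact Filter.tendsto_atTop_add_const_right _ _ Filter.tendsto_id
  rw [zero_mul] at hlim
  have h2 : ‖I₀‖ ≤ 0 := by
    refine ge_of_tendsto hlim ?_
    filter_upwards [Filter.eventually_ge_atTop r] with r' hr'
    exact hb r' hr'
  exact norm_le_zero_iff.1 h2

theorem integral_circ_pow (r : ℝ) (m : ℕ) (hm : m ≠ 0) :
    ∫ t in (0 : ℝ)..2 * Real.pi, ((r : ℂ) * Complex.exp (t * Complex.I)) ^ m = 0 := by
  have h1 : ∀ t : ℝ, ((r : ℂ) * Complex.exp (t * Complex.I)) ^ m =
      (r : ℂ) ^ m * Complex.exp ((m * Complex.I) * t) := by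
    intro t
    rw [mul_pow, ← Complex.exp_nat_mul]
    congr 2
    ring
  simp only [h1]
  rw [intervalIntegral.integral_const_mul, integral_exp_mul_complex]
  · have h2 : Complex.exp ((m * Complex.I) * ((2 * Real.pi : ℝ) : ℂ)) = 1 := by
      have := Complex.exp_nat_mul_two_pi_mul_I m
      rw [← this]
      congr 1
      push_cast
      ring
    rw [h2]
    simp
  · exact mul_ne_zero (by exact_mod_cast hm) Complex.I_ne_zero

theorem KR.rat_bound (h : KR T K R) (x y : E) : ∀ z : ℂ, 1 < ‖z‖ →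
    ‖⟪y, R z x⟫_ℂ‖ ≤ (‖y‖ * K * ‖x‖) / (‖z‖ - 1) := by
  intro z hz
  have h1 := h.bound' hz x
  have h2 := norm_inner_le_norm (𝕜 := ℂ) y (R z x)
  calc ‖⟪y, R z x⟫_ℂ‖ ≤ ‖y‖ * ‖R z x‖ := h2
    _ ≤ ‖y‖ * (K / (‖z‖ - 1) * ‖x‖) := mul_le_mul_of_nonneg_left h1 (norm_nonneg _)
    _ = _ := by ring

/-- powers of `T` as Fourier coefficients of the resolvent -/
theorem KR.fourier [FiniteDimensional ℂ E] (h : KR T K R) {r : ℝ} (hr : 1 < r) (y : E) (m : ℕ) :
    ∀ x : E, ∫ t in (0 : ℝ)..2 * Real.pi, ((r : ℂ) * Complex.exp (t * Complex.I)) ^ (m + 1) *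
      ⟪y, R (r * Complex.exp (t * Complex.I)) x⟫_ℂ = 2 * Real.pi * ⟪y, (T ^ m) x⟫_ℂ := by
  have hcont : ∀ x : E, Continuous fun t : ℝ =>
      ⟪y, R (r * Complex.exp (t * Complex.I)) x⟫_ℂ := fun x => (h.ratD x y).continuous_circ hr
  have hz1 : ∀ t : ℝ, 1 < ‖(r : ℂ) * Complex.exp (t * Complex.I)‖ := by
    intro t
    rw [norm_circ (by linarith)]; exact hr
  have hrec : ∀ (x : E) (t : ℝ), ((r : ℂ) * Complex.exp (t * Complex.I)) *
      ⟪y, R (r * Complex.exp (t * Complex.I)) x⟫_ℂ =
      ⟪y, x⟫_ℂ + ⟪y, R (r * Complex.exp (t * Complex.I)) (T x)⟫_ℂ := by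
    intro x t
    have h1 := h.right' (hz1 t) x
    rw [← h.commT (hz1 t), sub_eq_iff_eq_add] at h1
    rw [← inner_smul_right, h1, inner_add_right]
  have hstep : ∀ (x : E) (m : ℕ), ∫ t in (0 : ℝ)..2 * Real.pi,
      ((r : ℂ) * Complex.exp (t * Complex.I)) ^ (m + 1) *
      ⟪y, R (r * Complex.exp (t * Complex.I)) x⟫_ℂ =
      (∫ t in (0 : ℝ)..2 * Real.pi, ((r : ℂ) * Complex.exp (t * Complex.I)) ^ m) * ⟪y, x⟫_ℂ +
      ∫ t in (0 : ℝ)..2 * Real.pi, ((r : ℂ) * Complex.exp (t * Complex.I)) ^ m *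
        ⟪y, R (r * Complex.exp (t * Complex.I)) (T x)⟫_ℂ := by
    intro x m
    rw [← intervalIntegral.integral_mul_const, ← intervalIntegral.integral_add]
    · refine intervalIntegral.integral_congr fun t _ => ?_
      show _ = ((r : ℂ) * Complex.exp (t * Complex.I)) ^ m * ⟪y, x⟫_ℂ + _
      rw [pow_succ, mul_assoc, hrec x t]
      ring
    · exact Continuous.intervalIntegrable (by fun_prop) _ _
    · exact Continuous.intervalIntegrable (Continuous.mul (by fun_prop) (hcont (T x))) _ _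
  have hzero : ∀ x : E, ∫ t in (0 : ℝ)..2 * Real.pi,
      ⟪y, R (r * Complex.exp (t * Complex.I)) x⟫_ℂ = 0 := fun x =>
    (h.ratD x y).mean_zero (h.rat_bound x y) hr
  induction m with
  | zero =>
    intro x
    rw [hstep x 0]
    simp only [pow_zero, one_mul]
    rw [hzero (T x), add_zero]
    simp
  | succ m ih =>
    intro x
    rw [hstep x (m + 1), integral_circ_pow r (m + 1) (by omega), zero_mul, zero_add, ih (T x)]
    have : (T ^ (m + 1)) x = (T ^ m) (T x) := by rw [pow_succ]; rfl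
    rw [this]

/-- Fourier coefficients and discrete total variation -/
theorem fourier_tv {g : ℝ → ℂ} (hg : Continuous g) (hper : ∀ t, g (t + 2 * Real.pi) = g t)
    (n : ℕ) {B : ℝ}
    (hB : ∀ t : ℝ, ∑ j ∈ Finset.range (2 * (n + 1)),
      ‖g (t + (j + 1 : ℕ) * (2 * Real.pi / (2 * (n + 1) : ℕ))) -
        g (t + j * (2 * Real.pi / (2 * (n + 1) : ℕ)))‖ ≤ B) :
    ‖∫ t in (0 : ℝ)..2 * Real.pi, Complex.exp (t * Complex.I) ^ (n + 1) * g t‖ ≤
      Real.pi / (2 * (n + 1) : ℕ) * B := by
  set M : ℕ := 2 * (n + 1) with hM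
  have hM0 : (0 : ℝ) < (M : ℝ) := by rw [hM]; positivity
  set δ : ℝ := 2 * Real.pi / (M : ℝ) with hδ
  set F : ℝ → ℂ := fun t => Complex.exp (t * Complex.I) ^ (n + 1) * g t with hF
  have hFc : Continuous F := by rw [hF]; exact Continuous.mul (by fun_prop) hg
  have hFp : Function.Periodic F (2 * Real.pi) := by
    intro t
    simp only [hF]
    rw [hper]
    congr 2
    have : (((t + 2 * Real.pi : ℝ) : ℂ)) * Complex.I = t * Complex.I + 2 * Real.pi * Complex.I := by
      push_cast; ring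
    rw [this, Complex.exp_add, Complex.exp_two_pi_mul_I, mul_one]
  have hshift : ∀ {G : ℝ → ℂ}, Function.Periodic G (2 * Real.pi) → ∀ a : ℝ,
      ∫ t in (0 : ℝ)..2 * Real.pi, G (t + a) = ∫ t in (0 : ℝ)..2 * Real.pi, G t := by
    intro G hG a
    rw [intervalIntegral.integral_comp_add_right]
    have := hG.intervalIntegral_add_eq (0 + a) 0
    rw [zero_add, zero_add] at this
    rw [zero_add, add_comm (2 * Real.pi) a]
    exact this
  have hshiftR : ∀ {G : ℝ → ℝ}, Function.Periodic G (2 * Real.pi) → ∀ a : ℝ,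
      ∫ t in (0 : ℝ)..2 * Real.pi, G (t + a) = ∫ t in (0 : ℝ)..2 * Real.pi, G t := by
    intro G hG a
    rw [intervalIntegral.integral_comp_add_right]
    have := hG.intervalIntegral_add_eq (0 + a) 0
    rw [zero_add, zero_add] at this
    rw [zero_add, add_comm (2 * Real.pi) a]
    exact this
  have hexp : ∀ t : ℝ, Complex.exp (((t + δ : ℝ) : ℂ) * Complex.I) ^ (n + 1) =
      - Complex.exp (t * Complex.I) ^ (n + 1) := by
    intro t
    have e1 : (((t + δ : ℝ) : ℂ)) * Complex.I = t * Complex.I + (δ : ℂ) * Complex.I := by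
      push_cast; ring
    rw [e1, Complex.exp_add, mul_pow, ← Complex.exp_nat_mul (δ * Complex.I)]
    have e2 : ((n + 1 : ℕ) : ℂ) * ((δ : ℂ) * Complex.I) = Real.pi * Complex.I := by
      rw [hδ, hM]
      push_cast
      have : (n : ℂ) + 1 ≠ 0 := by exact_mod_cast Nat.succ_ne_zero n
      field_simp
    rw [e2, Complex.exp_pi_mul_I]
    ring
  set φ : ℝ → ℝ := fun t => ‖g (t + δ) - g t‖ with hφ
  have hφc : Continuous φ := by
    rw [hφ]; exact ((hg.comp (continuous_id.add continuous_const)).sub hg).norm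
  have hφp : Function.Periodic φ (2 * Real.pi) := by
    intro t
    simp only [hφ]
    rw [hper, show t + 2 * Real.pi + δ = (t + δ) + 2 * Real.pi by ring, hper]
  have h2F : (2 : ℂ) * ∫ t in (0 : ℝ)..2 * Real.pi, F t =
      ∫ t in (0 : ℝ)..2 * Real.pi, (Complex.exp (t * Complex.I) ^ (n + 1)) *
        (g t - g (t + δ)) := by
    have e1 := hshift hFp δ
    have e2 : ∫ t in (0 : ℝ)..2 * Real.pi, (F t + F (t + δ)) =
        (∫ t in (0 : ℝ)..2 * Real.pi, F t) + ∫ t in (0 : ℝ)..2 * Real.pi, F (t + δ) := by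
      refine intervalIntegral.integral_add (hFc.intervalIntegrable _ _) ?_
      exact (hFc.comp (continuous_id.add continuous_const)).intervalIntegrable _ _
    rw [e1] at e2
    rw [two_mul, ← e2]
    refine intervalIntegral.integral_congr fun t _ => ?_
    simp only [hF]
    rw [hexp t]
    ring
  have h3 : ‖(2 : ℂ) * ∫ t in (0 : ℝ)..2 * Real.pi, F t‖ ≤
      ∫ t in (0 : ℝ)..2 * Real.pi, φ t := by
    rw [h2F]
    refine (intervalIntegral.norm_integral_le_integral_norm (by positivity)).trans (le_of_eq ?_)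
    refine intervalIntegral.integral_congr fun t _ => ?_
    simp only [hφ]
    rw [norm_mul, norm_pow, Complex.norm_exp_ofReal_mul_I, one_pow, one_mul, norm_sub_rev]
  have h4 : (M : ℝ) * ∫ t in (0 : ℝ)..2 * Real.pi, φ t ≤ 2 * Real.pi * B := by
    have e1 : (M : ℝ) * ∫ t in (0 : ℝ)..2 * Real.pi, φ t =
        ∑ j ∈ Finset.range M, ∫ t in (0 : ℝ)..2 * Real.pi, φ (t + j * δ) := by
      rw [Finset.sum_congr rfl fun (j : ℕ) _ => hshiftR hφp ((j : ℝ) * δ), Finset.sum_const,
        Finset.card_range, nsmul_eq_mul]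
    rw [e1, ← intervalIntegral.integral_finset_sum]
    · have h5 : ∫ t in (0 : ℝ)..2 * Real.pi, ∑ j ∈ Finset.range M, φ (t + j * δ) ≤
          ∫ _t in (0 : ℝ)..2 * Real.pi, B := by
        refine intervalIntegral.integral_mono_on (by positivity) ?_ ?_ ?_
        · refine Continuous.intervalIntegrable ?_ _ _
          exact continuous_finset_sum _ fun j _ =>
            hφc.comp (continuous_id.add continuous_const)
        · exact intervalIntegrable_const
        · intro t _
          have := hB t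
          refine le_trans (le_of_eq ?_) this
          refine Finset.sum_congr rfl fun j _ => ?_
          simp only [hφ]
          congr 3
          push_cast
          ring
      refine h5.trans (le_of_eq ?_)
      rw [intervalIntegral.integral_const, sub_zero, smul_eq_mul]
    · intro j _
      exact (hφc.comp (continuous_id.add continuous_const)).intervalIntegrable _ _
  have h6 : 2 * ‖∫ t in (0 : ℝ)..2 * Real.pi, F t‖ ≤ ∫ t in (0 : ℝ)..2 * Real.pi, φ t := by
    rw [norm_mul] at h3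
    simpa using h3
  have h7 : ‖∫ t in (0 : ℝ)..2 * Real.pi, F t‖ ≤ Real.pi / (M : ℝ) * B := by
    rw [div_mul_eq_mul_div, le_div_iff₀ hM0]
    nlinarith
  exact h7

end Pool.Agent.H612K
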