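import Pool.Agent.H612K.K3
import Pool.Agent.H612K.K4

/-!
# Kreiss condition, part 5: powers from a square function bound of the resolvent
-/

open scoped InnerProductSpace Interval
open Polynomial MeasureTheory

namespace Pool.Agent.H612K

variable {E : Type*} [NormedAddCommGroup E] [InnerProductSpace ℂ E]
variable {T : E →L[ℂ] E} {K : ℝ} {R : ℂ → E →L[ℂ] E}

theorem KR.adj_bound [CompleteSpace E] (h : KR T K R) {z : ℂ} (hz : 1 < ‖z‖) {c : ℝ} (hc : 1 < c)
    (y : E) : ‖(R ((c : ℂ) * z)).adjoint y‖ ≤ (1 + K) * ‖(R z).adjoint y‖ := by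
  set w : ℂ := (c : ℂ) * z with hw
  have hwn : ‖w‖ = c * ‖z‖ := by
    rw [hw, norm_mul, Complex.norm_real, Real.norm_eq_abs, abs_of_pos (by linarith)]
  have hw1 : 1 < ‖w‖ := by rw [hwn]; nlinarith [norm_nonneg z]
  have e1 : (R w).adjoint y = (R z).adjoint y - (starRingEnd ℂ) (w - z) •
      (R w).adjoint ((R z).adjoint y) := by
    refine ext_inner_right ℂ fun x => ?_
    rw [inner_sub_left, inner_smul_left, Complex.conj_conj,
      ContinuousLinearMap.adjoint_inner_left, ContinuousLinearMap.adjoint_inner_left,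
      ContinuousLinearMap.adjoint_inner_left, ContinuousLinearMap.adjoint_inner_left,
      ← inner_smul_right, ← inner_sub_right, ← h.res_id hz hw1]
    congr 1
    abel
  have e2 : ‖(R w).adjoint ((R z).adjoint y)‖ ≤ K / (‖w‖ - 1) * ‖(R z).adjoint y‖ := by
    refine (ContinuousLinearMap.le_opNorm _ _).trans ?_
    refine mul_le_mul_of_nonneg_right ?_ (norm_nonneg _)
    rw [ContinuousLinearMap.adjoint.norm_map]
    exact h.bound w hw1
  have e3 : ‖w - z‖ = (c - 1) * ‖z‖ := by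
    have : w - z = ((c - 1 : ℝ) : ℂ) * z := by rw [hw]; push_cast; ring
    rw [this, norm_mul, Complex.norm_real, Real.norm_eq_abs, abs_of_pos (by linarith)]
  have hK := h.K_nonneg
  have e4 : (c - 1) * ‖z‖ * (K / (‖w‖ - 1)) ≤ K := by
    rw [hwn, mul_div_assoc', div_le_iff₀ (by nlinarith)]
    have : (c - 1) * ‖z‖ ≤ c * ‖z‖ - 1 := by nlinarith
    nlinarith
  rw [e1]
  refine (norm_sub_le _ _).trans ?_
  rw [norm_smul, RCLike.norm_conj, e3]
  have e5 : (c - 1) * ‖z‖ * ‖(R w).adjoint ((R z).adjoint y)‖ ≤ K * ‖(R z).adjoint y‖ := by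
    calc _ ≤ (c - 1) * ‖z‖ * (K / (‖w‖ - 1) * ‖(R z).adjoint y‖) := by
          refine mul_le_mul_of_nonneg_left e2 ?_
          exact mul_nonneg (by linarith) (norm_nonneg _)
      _ = ((c - 1) * ‖z‖ * (K / (‖w‖ - 1))) * ‖(R z).adjoint y‖ := by ring
      _ ≤ _ := mul_le_mul_of_nonneg_right e4 (norm_nonneg _)
  linarith

/-- `|h(z) - h(cz)| ≤ (c-1)|z|(1+K) ‖R z x‖ ‖R z* y‖` -/
theorem KR.diff_bound [CompleteSpace E] (h : KR T K R) {z : ℂ} (hz : 1 < ‖z‖) {c : ℝ} (hc : 1 < c)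
    (x y : E) : ‖⟪y, R z x⟫_ℂ - ⟪y, R ((c : ℂ) * z) x⟫_ℂ‖ ≤
      (c - 1) * ‖z‖ * (1 + K) * (‖R z x‖ * ‖(R z).adjoint y‖) := by
  set w : ℂ := (c : ℂ) * z with hw
  have hwn : ‖w‖ = c * ‖z‖ := by
    rw [hw, norm_mul, Complex.norm_real, Real.norm_eq_abs, abs_of_pos (by linarith)]
  have hw1 : 1 < ‖w‖ := by rw [hwn]; nlinarith [norm_nonneg z]
  have e3 : ‖w - z‖ = (c - 1) * ‖z‖ := by
    have : w - z = ((c - 1 : ℝ) : ℂ) * z := by rw [hw]; push_cast; ring
    rw [this, norm_mul, Complex.norm_real, Real.norm_eq_abs, abs_of_pos (by linarith)]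
  have e4 := h.adj_bound hz hc y
  rw [← inner_sub_right, h.res_id hz hw1, h.comm hz hw1, inner_smul_right,
    ← ContinuousLinearMap.adjoint_inner_left, norm_mul, e3]
  have e5 := norm_inner_le_norm (𝕜 := ℂ) ((R w).adjoint y) (R z x)
  have hn : 0 ≤ (c - 1) * ‖z‖ := mul_nonneg (by linarith) (norm_nonneg _)
  calc _ ≤ (c - 1) * ‖z‖ * (‖(R w).adjoint y‖ * ‖R z x‖) := mul_le_mul_of_nonneg_left e5 hn
    _ ≤ (c - 1) * ‖z‖ * (((1 + K) * ‖(R z).adjoint y‖) * ‖R z x‖) :=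
        mul_le_mul_of_nonneg_left (mul_le_mul_of_nonneg_right e4 (norm_nonneg _)) hn
    _ = _ := by ring

/-- total variation of the real part of `ζ * g` along the grid -/
theorem KR.tv_re [FiniteDimensional ℂ E] [CompleteSpace E] (h : KR T K R) (M : ℕ) (hM : 0 < M)
    {Q : ℝ} (hQ0 : 0 ≤ Q)
    (hQ : ∀ (τ : ℝ) (J : Finset ℕ), J ⊆ Finset.range M → J.card ≤ 16 * Module.finrank ℂ E →
      ∀ x y : E, ∑ j ∈ J, ‖R ((1 + 1 / (M : ℝ) : ℝ) *
        Complex.exp ((τ + j * (2 * Real.pi / M) : ℝ) * Complex.I)) x‖ *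
        ‖(R ((1 + 1 / (M : ℝ) : ℝ) *
        Complex.exp ((τ + j * (2 * Real.pi / M) : ℝ) * Complex.I))).adjoint y‖ ≤
        Q * (M : ℝ) ^ 2 * (‖x‖ * ‖y‖)) (ζ : ℂ) (hζ : ‖ζ‖ = 1) (x y : E) (τ : ℝ)
    (g : ℝ → ℂ) (hg : ∀ t, g t = ⟪y, R ((1 + 1 / (M : ℝ) : ℝ) * Complex.exp (t * Complex.I)) x⟫_ℂ -
      ⟪y, R (((1 + 1 / (M : ℝ) : ℝ) : ℂ) *
        ((1 + 1 / (M : ℝ) : ℝ) * Complex.exp (t * Complex.I))) x⟫_ℂ) :
    ∑ j ∈ Finset.range M, |(ζ * (g (τ + (j + 1 : ℕ) * (2 * Real.pi / M)) -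
        g (τ + j * (2 * Real.pi / M)))).re| ≤ 4 * M * (1 + K) * Q * (‖x‖ * ‖y‖) := by
  set N := Module.finrank ℂ E with hN
  set r : ℝ := 1 + 1 / (M : ℝ) with hr
  set δ : ℝ := 2 * Real.pi / M with hδ
  have hMR : (0 : ℝ) < M := by exact_mod_cast hM
  have hM1 : (1 : ℝ) ≤ M := by exact_mod_cast hM
  have hMδ : (M : ℝ) * δ = 2 * Real.pi := by rw [hδ]; field_simp
  have hK := h.K_nonneg
  have hr1 : 1 < r := by rw [hr]; have : 0 < 1 / (M : ℝ) := by positivity
                         linarith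
  have hr2 : r ≤ 2 := by
    rw [hr]; have : 1 / (M : ℝ) ≤ 1 := by rw [div_le_one hMR]; exact hM1
    linarith
  -- the rational functions
  set f₁ : ℂ → ℂ := fun z => ⟪y, R z x⟫_ℂ - ⟪y, R ((r : ℂ) * z) x⟫_ℂ with hf₁
  have hrn : 1 ≤ ‖(r : ℂ)‖ := by
    rw [Complex.norm_real, Real.norm_eq_abs, abs_of_pos (by linarith)]; exact hr1.le
  have hf₁R : RatD (N + N) f₁ := (h.ratD x y).sub ((h.ratD x y).comp_mul hrn)
  set ω : ℂ := Complex.exp (δ * Complex.I) with hω
  have hωn : 1 ≤ ‖ω‖ := by rw [hω, Complex.norm_exp_ofReal_mul_I]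
  set f₂ : ℂ → ℂ := fun z => ζ * (f₁ (ω * z) - f₁ z) with hf₂
  have hf₂R : RatD ((N + N) + (N + N)) f₂ := ((hf₁R.comp_mul hωn).sub hf₁R).const_mul ζ
  have hgf : ∀ t : ℝ, g t = f₁ (r * Complex.exp (t * Complex.I)) := fun t => hg t
  have hgper : ∀ (t : ℝ) (k : ℕ), g (t + k * (2 * Real.pi)) = g t := by
    intro t k
    rw [hgf, hgf]
    congr 2
    rw [Complex.exp_eq_exp_iff_exists_int]
    exact ⟨k, by push_cast; ring⟩
  set t : ℕ → ℝ := fun j => τ + j * δ with ht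
  set G : ℕ → ℝ := fun j => (ζ * g (t j)).re with hG
  have hGM : ∀ j, G (j + M) = G j := by
    intro j
    simp only [hG, ht]
    have : τ + ((j + M : ℕ) : ℝ) * δ = (τ + j * δ) + (1 : ℕ) * (2 * Real.pi) := by
      push_cast
      rw [← hMδ]; ring
    rw [this, hgper]
  have hD : ∀ j : ℕ, G (j + 1) - G j = (f₂ (r * Complex.exp ((t j : ℝ) * Complex.I))).re := by
    intro j
    simp only [hG, hf₂]
    rw [← Complex.sub_re, ← mul_sub, hgf, hgf]
    congr 4
    have : t (j + 1) = t j + δ := by simp only [ht]; push_cast; ring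
    rw [this, hω]
    push_cast
    rw [add_mul, Complex.exp_add]
    ring
  have hLHS : ∑ j ∈ Finset.range M, |(ζ * (g (τ + (j + 1 : ℕ) * δ) -
        g (τ + j * δ))).re| = ∑ j ∈ Finset.range M, |G (j + 1) - G j| := by
    refine Finset.sum_congr rfl fun j _ => ?_
    simp only [hG, ht]
    rw [mul_sub, Complex.sub_re]
  rw [hLHS]
  have hRHS0 : 0 ≤ 4 * M * (1 + K) * Q * (‖x‖ * ‖y‖) := by positivity
  rcases hf₂R.zeros hr1 with h0 | ⟨Z, hZc, hZ⟩
  · have : ∀ j ∈ Finset.range M, |G (j + 1) - G j| = 0 := by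
      intro j _
      rw [hD, h0 _ (norm_circ (by linarith) _), abs_zero]
    rw [Finset.sum_eq_zero this]
    exact hRHS0
  refine (tv_bound M G hGM).trans ?_
  set J := (Finset.range M).filter
        (fun j => ¬ (0 ≤ G (j + 1) - G j ↔ 0 ≤ G (j + 2) - G (j + 1))) with hJ
  have hJc : J.card ≤ 16 * N := by
    have hcont : Continuous fun t : ℝ => (f₂ (r * Complex.exp (t * Complex.I))).re :=
      Complex.continuous_re.comp (hf₂R.continuous_circ hr1)
    have h1 := sign_count hr1 Z hZ hcont M hM τ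
    have h2 : J = ((Finset.range M).filter (fun j : ℕ =>
      ¬ (0 ≤ (f₂ (r * Complex.exp ((τ + j * (2 * Real.pi / M) : ℝ) * Complex.I))).re ↔
        0 ≤ (f₂ (r * Complex.exp ((τ + (j + 1 : ℕ) * (2 * Real.pi / M) : ℝ) *
          Complex.I))).re))) := by
      rw [hJ]
      refine Finset.filter_congr fun j _ => ?_
      rw [hD j, hD (j + 1)]
    rw [h2]
    omega
  have hb := hQ (τ + δ) J (Finset.filter_subset _ _) hJc x y
  have hterm : ∀ j ∈ J, |G (j + 1)| ≤ (2 / M) * (1 + K) *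
      (‖R ((r : ℝ) * Complex.exp ((τ + δ + j * δ : ℝ) * Complex.I)) x‖ *
        ‖(R ((r : ℝ) * Complex.exp ((τ + δ + j * δ : ℝ) * Complex.I))).adjoint y‖) := by
    intro j _
    have e1 : t (j + 1) = τ + δ + j * δ := by simp only [ht]; push_cast; ring
    have e2 : |G (j + 1)| ≤ ‖g (t (j + 1))‖ := by
      simp only [hG]
      refine (Complex.abs_re_le_norm _).trans ?_
      rw [norm_mul, hζ, one_mul]
    refine e2.trans ?_
    rw [hgf, e1]
    set z : ℂ := (r : ℂ) * Complex.exp ((τ + δ + j * δ : ℝ) * Complex.I) with hz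
    have hzn : ‖z‖ = r := norm_circ (by linarith) _
    have e3 := h.diff_bound (z := z) (by rw [hzn]; exact hr1) hr1 x y
    refine e3.trans ?_
    rw [hzn]
    refine mul_le_mul_of_nonneg_right ?_ (by positivity)
    refine mul_le_mul_of_nonneg_right ?_ (by linarith)
    have e4 : r - 1 = 1 / M := by rw [hr]; ring
    rw [e4]
    calc 1 / (M : ℝ) * r ≤ 1 / (M : ℝ) * 2 := mul_le_mul_of_nonneg_left hr2 (by positivity)
      _ = 2 / M := by ring
  calc 2 * ∑ j ∈ J, |G (j + 1)| ≤ 2 * ∑ j ∈ J, (2 / M) * (1 + K) *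
      (‖R ((r : ℝ) * Complex.exp ((τ + δ + j * δ : ℝ) * Complex.I)) x‖ *
        ‖(R ((r : ℝ) * Complex.exp ((τ + δ + j * δ : ℝ) * Complex.I))).adjoint y‖) :=
        mul_le_mul_of_nonneg_left (Finset.sum_le_sum hterm) (by norm_num)
    _ = 2 * ((2 / M) * (1 + K) * ∑ j ∈ J,
      (‖R ((r : ℝ) * Complex.exp ((τ + δ + j * δ : ℝ) * Complex.I)) x‖ *
        ‖(R ((r : ℝ) * Complex.exp ((τ + δ + j * δ : ℝ) * Complex.I))).adjoint y‖)) := by
        rw [← Finset.mul_sum]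
    _ ≤ 2 * ((2 / M) * (1 + K) * (Q * (M : ℝ) ^ 2 * (‖x‖ * ‖y‖))) := by
        refine mul_le_mul_of_nonneg_left ?_ (by norm_num)
        refine mul_le_mul_of_nonneg_left hb (by positivity)
    _ = 4 * M * (1 + K) * Q * (‖x‖ * ‖y‖) := by
        field_simp
        ring

theorem KR.power_bound [FiniteDimensional ℂ E] [CompleteSpace E] (h : KR T K R) (n : ℕ)
    {Q : ℝ} (hQ0 : 0 ≤ Q)
    (hQ : ∀ (τ : ℝ) (J : Finset ℕ), J ⊆ Finset.range (2 * (n + 1)) →
      J.card ≤ 16 * Module.finrank ℂ E →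
      ∀ x y : E, ∑ j ∈ J, ‖R ((1 + 1 / ((2 * (n + 1) : ℕ) : ℝ) : ℝ) *
        Complex.exp ((τ + j * (2 * Real.pi / (2 * (n + 1) : ℕ)) : ℝ) * Complex.I)) x‖ *
        ‖(R ((1 + 1 / ((2 * (n + 1) : ℕ) : ℝ) : ℝ) *
        Complex.exp ((τ + j * (2 * Real.pi / (2 * (n + 1) : ℕ)) : ℝ) * Complex.I))).adjoint y‖ ≤
        Q * ((2 * (n + 1) : ℕ) : ℝ) ^ 2 * (‖x‖ * ‖y‖)) :
    ‖T ^ n‖ ≤ 32 * (1 + K) * Q := by
  set M : ℕ := 2 * (n + 1) with hM
  have hM0 : 0 < M := by omega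
  have hMR : (0 : ℝ) < M := by exact_mod_cast hM0
  have hM1 : (1 : ℝ) ≤ M := by exact_mod_cast hM0
  have hK := h.K_nonneg
  set r : ℝ := 1 + 1 / (M : ℝ) with hr
  set δ : ℝ := 2 * Real.pi / M with hδ
  have hr1 : 1 < r := by rw [hr]; have : 0 < 1 / (M : ℝ) := by positivity
                         linarith
  refine ContinuousLinearMap.opNorm_le_bound _ (by positivity) fun x => ?_
  -- it suffices to bound the matrix elements
  have key : ∀ y : E, ‖⟪y, (T ^ n) x⟫_ℂ‖ ≤ 32 * (1 + K) * Q * (‖x‖ * ‖y‖) := by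
    intro y
    set g : ℝ → ℂ := fun t => ⟪y, R (r * Complex.exp (t * Complex.I)) x⟫_ℂ -
      ⟪y, R ((r : ℂ) * (r * Complex.exp (t * Complex.I))) x⟫_ℂ with hg
    have hrn : 1 ≤ ‖(r : ℂ)‖ := by
      rw [Complex.norm_real, Real.norm_eq_abs, abs_of_pos (by linarith)]; exact hr1.le
    have hf₁R : RatD _ (fun z => ⟪y, R z x⟫_ℂ - ⟪y, R ((r : ℂ) * z) x⟫_ℂ) :=
      (h.ratD x y).sub ((h.ratD x y).comp_mul hrn)
    have hgc : Continuous g := hf₁R.continuous_circ hr1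
    have hgper : ∀ t : ℝ, g (t + 2 * Real.pi) = g t := by
      intro t
      have : Complex.exp (((t + 2 * Real.pi : ℝ) : ℂ) * Complex.I) =
          Complex.exp (t * Complex.I) := by
        rw [Complex.exp_eq_exp_iff_exists_int]
        exact ⟨1, by push_cast; ring⟩
      simp only [hg, this]
    have hTV : ∀ t : ℝ, ∑ j ∈ Finset.range M,
        ‖g (t + (j + 1 : ℕ) * δ) - g (t + j * δ)‖ ≤ 8 * M * (1 + K) * Q * (‖x‖ * ‖y‖) := by
      intro τ
      have h1 := h.tv_re M hM0 hQ0 hQ 1 (by simp) x y τ g (fun t => rfl)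
      have h2 := h.tv_re M hM0 hQ0 hQ (-Complex.I) (by simp) x y τ g (fun t => rfl)
      calc ∑ j ∈ Finset.range M, ‖g (τ + (j + 1 : ℕ) * δ) - g (τ + j * δ)‖ ≤
          ∑ j ∈ Finset.range M, (|((1 : ℂ) * (g (τ + (j + 1 : ℕ) * δ) - g (τ + j * δ))).re| +
            |((-Complex.I) * (g (τ + (j + 1 : ℕ) * δ) - g (τ + j * δ))).re|) := by
            refine Finset.sum_le_sum fun j _ => ?_
            refine (Complex.norm_le_abs_re_add_abs_im _).trans (le_of_eq ?_)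
            simp
        _ ≤ 4 * M * (1 + K) * Q * (‖x‖ * ‖y‖) + 4 * M * (1 + K) * Q * (‖x‖ * ‖y‖) := by
            rw [Finset.sum_add_distrib]
            exact add_le_add h1 h2
        _ = _ := by ring
    have hfour := fourier_tv hgc hgper n hTV
    -- evaluate the Fourier coefficient
    have hF1 := h.fourier hr1 y n x
    have hF2 := h.fourier (r := r * r) (by nlinarith) y n x
    set ρ : ℝ := r ^ (n + 1) with hρ
    have hρ0 : 0 < ρ := by rw [hρ]; positivity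
    have hρC : (ρ : ℂ) ≠ 0 := by exact_mod_cast hρ0.ne'
    have hc1 : Continuous fun t : ℝ => ⟪y, R (r * Complex.exp (t * Complex.I)) x⟫_ℂ :=
      (h.ratD x y).continuous_circ hr1
    have hc2 : Continuous fun t : ℝ =>
        ⟪y, R ((r : ℂ) * (r * Complex.exp (t * Complex.I))) x⟫_ℂ :=
      ((h.ratD x y).comp_mul hrn).continuous_circ hr1
    have e1 : (ρ : ℂ) * ∫ t in (0 : ℝ)..2 * Real.pi, Complex.exp (t * Complex.I) ^ (n + 1) *
        ⟪y, R (r * Complex.exp (t * Complex.I)) x⟫_ℂ = 2 * Real.pi * ⟪y, (T ^ n) x⟫_ℂ := by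
      rw [← hF1, ← intervalIntegral.integral_const_mul]
      refine intervalIntegral.integral_congr fun t _ => ?_
      simp only [hρ]
      push_cast
      ring
    have e2 : (ρ : ℂ) * ρ * ∫ t in (0 : ℝ)..2 * Real.pi, Complex.exp (t * Complex.I) ^ (n + 1) *
        ⟪y, R ((r : ℂ) * (r * Complex.exp (t * Complex.I))) x⟫_ℂ =
        2 * Real.pi * ⟪y, (T ^ n) x⟫_ℂ := by
      rw [← hF2, ← intervalIntegral.integral_const_mul]
      refine intervalIntegral.integral_congr fun t _ => ?_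
      simp only [hρ]
      push_cast
      rw [← mul_assoc (r : ℂ) r]
      ring
    have e3 : ∫ t in (0 : ℝ)..2 * Real.pi, Complex.exp (t * Complex.I) ^ (n + 1) * g t =
        (∫ t in (0 : ℝ)..2 * Real.pi, Complex.exp (t * Complex.I) ^ (n + 1) *
          ⟪y, R (r * Complex.exp (t * Complex.I)) x⟫_ℂ) -
        ∫ t in (0 : ℝ)..2 * Real.pi, Complex.exp (t * Complex.I) ^ (n + 1) *
          ⟪y, R ((r : ℂ) * (r * Complex.exp (t * Complex.I))) x⟫_ℂ := by
      rw [← intervalIntegral.integral_sub]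
      · refine intervalIntegral.integral_congr fun t _ => ?_
        simp only [hg]
        ring
      · exact (Continuous.mul (by fun_prop) hc1).intervalIntegrable _ _
      · exact (Continuous.mul (by fun_prop) hc2).intervalIntegrable _ _
    have e4 : (ρ : ℂ) * ρ * ∫ t in (0 : ℝ)..2 * Real.pi,
        Complex.exp (t * Complex.I) ^ (n + 1) * g t =
        ((ρ : ℂ) - 1) * (2 * Real.pi * ⟪y, (T ^ n) x⟫_ℂ) := by
      rw [e3, mul_sub, e2]
      linear_combination (ρ : ℂ) * e1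
    have e5 := congrArg norm e4
    have hρ1 : (3 : ℝ) / 2 ≤ ρ := by
      have hb : 1 + ((n + 1 : ℕ) : ℝ) * (1 / (M : ℝ)) ≤ (1 + 1 / (M : ℝ)) ^ (n + 1) :=
        one_add_mul_le_pow (by have : 0 < 1 / (M : ℝ) := by positivity
                               linarith) _
      have hb2 : ((n + 1 : ℕ) : ℝ) * (1 / (M : ℝ)) = 1 / 2 := by
        rw [hM]; push_cast; field_simp
      rw [hb2] at hb
      rw [hρ, hr]
      linarith
    have hρ2 : ρ ≤ 2 := by
      have hb : r ≤ Real.exp (1 / (M : ℝ)) := by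
        rw [hr, add_comm]; exact Real.add_one_le_exp _
      have hb2 : ρ ≤ Real.exp (1 / 2) := by
        rw [hρ]
        calc r ^ (n + 1) ≤ (Real.exp (1 / (M : ℝ))) ^ (n + 1) :=
              pow_le_pow_left₀ (by linarith) hb _
          _ = Real.exp (1 / 2) := by
              rw [← Real.exp_nat_mul]
              congr 1
              rw [hM]; push_cast; field_simp
      have hb3 : Real.exp (1 / 2) ≤ 2 := by
        have h1 : Real.exp (1 / 2) ^ 2 = Real.exp 1 := by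
          rw [← Real.exp_nat_mul]; norm_num
        have h2 := Real.exp_one_lt_d9
        have h3 := Real.exp_pos (1 / 2)
        nlinarith
      linarith
    have e6 : ‖(ρ : ℂ) - 1‖ = ρ - 1 := by
      have : (ρ : ℂ) - 1 = ((ρ - 1 : ℝ) : ℂ) := by push_cast; ring
      rw [this, Complex.norm_real, Real.norm_eq_abs, abs_of_pos (by linarith)]
    have e7 : ‖(2 : ℂ) * Real.pi‖ = 2 * Real.pi := by
      rw [norm_mul, Complex.norm_real, Real.norm_eq_abs, abs_of_pos Real.pi_pos]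
      norm_num
    rw [norm_mul, norm_mul, norm_mul, norm_mul, e6, e7, Complex.norm_real, Real.norm_eq_abs,
      abs_of_pos hρ0] at e5
    have hpi := Real.pi_pos
    set a := ‖⟪y, (T ^ n) x⟫_ℂ‖ with ha
    set W := ‖∫ t in (0 : ℝ)..2 * Real.pi, Complex.exp (t * Complex.I) ^ (n + 1) * g t‖ with hW
    have ha0 : 0 ≤ a := norm_nonneg _
    have hW0 : 0 ≤ W := norm_nonneg _
    have hfour' : W ≤ 8 * Real.pi * ((1 + K) * Q * (‖x‖ * ‖y‖)) := by
      refine hfour.trans (le_of_eq ?_)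
      rw [div_mul_eq_mul_div, div_eq_iff hMR.ne']
      ring
    have e8 : (ρ - 1) * (2 * Real.pi * a) ≤ 4 * W := by
      rw [← e5]
      have : ρ * ρ ≤ 4 := by nlinarith
      nlinarith
    have e9 : Real.pi * a ≤ 4 * W := by
      have h1 : (1 / 2 : ℝ) * (2 * Real.pi * a) ≤ (ρ - 1) * (2 * Real.pi * a) :=
        mul_le_mul_of_nonneg_right (by linarith) (by positivity)
      nlinarith
    have e10 : Real.pi * a ≤ Real.pi * (32 * (1 + K) * Q * (‖x‖ * ‖y‖)) := by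
      nlinarith
    exact le_of_mul_le_mul_left e10 hpi
  have h1 := key ((T ^ n) x)
  rw [inner_self_eq_norm_sq_to_K] at h1
  have h2 : ‖((‖(T ^ n) x‖ : ℂ)) ^ 2‖ = ‖(T ^ n) x‖ ^ 2 := by
    rw [norm_pow, Complex.norm_real, norm_norm]
  have h3 : ‖(T ^ n) x‖ ^ 2 ≤ 32 * (1 + K) * Q * (‖x‖ * ‖(T ^ n) x‖) := by
    rw [← h2]; exact h1
  by_cases h0 : ‖(T ^ n) x‖ = 0
  · rw [h0]; positivity
  · have hpos : 0 < ‖(T ^ n) x‖ := lt_of_le_of_ne (norm_nonneg _) (Ne.symm h0)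
    nlinarith

end Pool.Agent.H612K
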