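import Pool.Agent.H612K.K12
import Pool.Agent.H612K.K5

/-!
# Kreiss condition, part 13: assembly
-/

open scoped InnerProductSpace
open Finset

namespace Pool.Agent.H612K

variable {E : Type*} [NormedAddCommGroup E] [InnerProductSpace ℂ E]
variable {T : E →L[ℂ] E} {K : ℝ} {R : ℂ → E →L[ℂ] E}

/-- the constant of the grid bound -/
noncomputable def CC (k : ℕ) (K : ℝ) : ℝ := (204800 * k) * (10 ^ 6 * k * K ^ 2)

theorem CC_nonneg (k : ℕ) (K : ℝ) : 0 ≤ CC k K := by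
  unfold CC; positivity

theorem KR.grid_bound [FiniteDimensional ℂ E] (h : KR T K R) (hK1 : 1 ≤ K) {k : ℕ} (hk : 2 ≤ k)
    {s₀ : ℝ} (hs₀ : s₀ = 1 / (51200 * k)) (hKκ : K ^ 2 * (1 - s₀ ^ 2) ≤ 1) {M : ℕ} (hM : 0 < M)
    (θ : ℝ) (J : Finset ℕ) (hJ : J ⊆ range M) (y : E) :
    ∑ j ∈ J, ((1 / (M : ℝ)) * ‖R (zz M θ j) y‖) ^ 2 ≤
      CC k K * (J.card : ℝ) ^ (1 / (k : ℝ)) * ‖y‖ ^ 2 := by
  classical
  have hkR : (2 : ℝ) ≤ k := by exact_mod_cast hk
  rcases J.eq_empty_or_nonempty with h0 | hne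
  · subst h0
    simp only [sum_empty]
    have := CC_nonneg k K
    positivity
  set n : ℕ := J.card with hn
  have hn1 : 1 ≤ n := Finset.card_pos.2 hne
  have hnR : (1 : ℝ) ≤ n := by exact_mod_cast hn1
  set c : ℕ := 204800 * k with hc
  have hc0 : 0 < c := by omega
  set D : ℕ := M / c with hD
  have hDM : D * c ≤ M := Nat.div_mul_le_self _ _
  set ρ : ℝ := (n : ℝ) ^ (1 / (k : ℝ)) with hρ
  have hρ0 : 0 < ρ := Real.rpow_pos_of_pos (by linarith) _
  have hρk : ρ ^ k = n := by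
    rw [hρ, ← Real.rpow_natCast, ← Real.rpow_mul (by linarith), one_div_mul_cancel (by positivity),
      Real.rpow_one]
  -- one block
  have hblock : ∀ b : ℕ, ∑ j ∈ J.filter (fun j => j / (D + 1) = b),
      ((1 / (M : ℝ)) * ‖R (zz M θ j) y‖) ^ 2 ≤ ρ * (10 ^ 6 * k * K ^ 2 * ‖y‖ ^ 2) := by
    intro b
    set S := J.filter (fun j => j / (D + 1) = b) with hS
    have hdiam : ∀ i ∈ S, ∀ j ∈ S, j ≤ i + D := by
      intro i hi j hj
      have h1 : i / (D + 1) = b := (mem_filter.1 hi).2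
      have h2 : j / (D + 1) = b := (mem_filter.1 hj).2
      have h3 := Nat.div_mul_le_self i (D + 1)
      have h4 := Nat.lt_div_mul_add (a := j) (b := D + 1) (Nat.succ_pos D)
      rw [h1] at h3
      rw [h2] at h4
      omega
    have h1 := h.arc_bound hK1 hk hs₀ hKκ hM θ S D hdiam hDM (fun _ => ρ⁻¹)
      (fun _ _ => (inv_pos.2 hρ0).le) (by
        rw [Finset.sum_const, nsmul_eq_mul, inv_pow, hρk, ← div_eq_mul_inv, div_le_one (by linarith)]
        exact_mod_cast Finset.card_le_card (Finset.filter_subset _ _)) y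
    rw [← Finset.mul_sum, inv_mul_le_iff₀ hρ0] at h1
    exact h1
  have hmaps : ∀ j ∈ J, j / (D + 1) ∈ range c := by
    intro j hj
    have h1 : j < M := mem_range.1 (hJ hj)
    have h2 : M < (D + 1) * c := by
      have := Nat.lt_div_mul_add (a := M) (b := c) hc0
      rw [← hD] at this
      nlinarith
    rw [mem_range, Nat.div_lt_iff_lt_mul (Nat.succ_pos D)]
    nlinarith
  rw [← Finset.sum_fiberwise_of_maps_to hmaps]
  calc _ ≤ ∑ _b ∈ range c, ρ * (10 ^ 6 * k * K ^ 2 * ‖y‖ ^ 2) :=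
        Finset.sum_le_sum fun b _ => hblock b
    _ = CC k K * ρ * ‖y‖ ^ 2 := by
        rw [Finset.sum_const, card_range, nsmul_eq_mul]
        unfold CC
        rw [hc]
        push_cast
        ring

theorem KR.adj [CompleteSpace E] (h : KR T K R) :
    KR T.adjoint K (fun z => (R ((starRingEnd ℂ) z)).adjoint) := by
  have hstar : ∀ z : ℂ, ((starRingEnd ℂ) z • (1 : E →L[ℂ] E) - T).adjoint =
      z • (1 : E →L[ℂ] E) - T.adjoint := by
    intro z
    rw [map_sub, LinearIsometryEquiv.map_smulₛₗ, Complex.conj_conj]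
    congr 2
    exact ContinuousLinearMap.adjoint_id
  have hn : ∀ z : ℂ, 1 < ‖z‖ → 1 < ‖(starRingEnd ℂ) z‖ := by
    intro z hz
    rwa [RCLike.norm_conj]
  refine ⟨fun z hz => ?_, fun z hz => ?_, fun z hz => ?_⟩
  · rw [← hstar z]
    have h1 := h.right _ (hn z hz)
    have h2 := congrArg ContinuousLinearMap.adjoint h1
    rw [ContinuousLinearMap.mul_def, ContinuousLinearMap.adjoint_comp] at h2
    rw [ContinuousLinearMap.mul_def]
    refine h2.trans ?_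
    exact ContinuousLinearMap.adjoint_id
  · rw [← hstar z]
    have h1 := h.left _ (hn z hz)
    have h2 := congrArg ContinuousLinearMap.adjoint h1
    rw [ContinuousLinearMap.mul_def, ContinuousLinearMap.adjoint_comp] at h2
    rw [ContinuousLinearMap.mul_def]
    refine h2.trans ?_
    exact ContinuousLinearMap.adjoint_id
  · rw [ContinuousLinearMap.adjoint.norm_map]
    have h1 := h.bound _ (hn z hz)
    rwa [RCLike.norm_conj] at h1

theorem zz_conj (M : ℕ) (θ : ℝ) {j : ℕ} (hj : j < M) :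
    (starRingEnd ℂ) (zz M (-θ - ((M : ℝ) - 1) * (2 * Real.pi / M)) (M - 1 - j)) = zz M θ j := by
  unfold zz
  rw [map_mul, Complex.conj_ofReal, ← Complex.exp_conj, map_mul, Complex.conj_ofReal,
    Complex.conj_I]
  congr 2
  have h1 : ((M - 1 - j : ℕ) : ℝ) = (M : ℝ) - 1 - j := by
    have : ((M - 1 - j : ℕ) : ℝ) + (j + 1 : ℕ) = M := by
      exact_mod_cast (by omega : (M - 1 - j) + (j + 1) = M)
    push_cast at this
    linarith
  rw [h1]
  push_cast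
  ring

theorem KR.pair_bound [FiniteDimensional ℂ E] [CompleteSpace E] (h : KR T K R) (hK1 : 1 ≤ K)
    {k : ℕ} (hk : 2 ≤ k)
    {s₀ : ℝ} (hs₀ : s₀ = 1 / (51200 * k)) (hKκ : K ^ 2 * (1 - s₀ ^ 2) ≤ 1) {M : ℕ} (hM : 0 < M)
    (θ : ℝ) (J : Finset ℕ) (hJ : J ⊆ range M) (x y : E) :
    ∑ j ∈ J, ‖R (zz M θ j) x‖ * ‖(R (zz M θ j)).adjoint y‖ ≤
      (CC k K * (J.card : ℝ) ^ (1 / (k : ℝ))) * (M : ℝ) ^ 2 * (‖x‖ * ‖y‖) := by
  classical
  have hMR : (0 : ℝ) < M := by exact_mod_cast hM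
  set Q : ℝ := CC k K * (J.card : ℝ) ^ (1 / (k : ℝ)) with hQ
  have hQ0 : 0 ≤ Q := mul_nonneg (CC_nonneg k K) (by positivity)
  have h1 := h.grid_bound hK1 hk hs₀ hKκ hM θ J hJ x
  -- the adjoint
  have h2 : ∑ j ∈ J, ((1 / (M : ℝ)) * ‖(R (zz M θ j)).adjoint y‖) ^ 2 ≤ Q * ‖y‖ ^ 2 := by
    set θ' : ℝ := -θ - ((M : ℝ) - 1) * (2 * Real.pi / M) with hθ'
    have hinj : Set.InjOn (fun j => M - 1 - j) (J : Set ℕ) := by
      intro a ha b hb hab
      have ha' := mem_range.1 (hJ ha)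
      have hb' := mem_range.1 (hJ hb)
      simp only at hab
      omega
    set J' := J.image (fun j => M - 1 - j) with hJ'
    have hJ'sub : J' ⊆ range M := by
      intro a ha
      obtain ⟨j, _, rfl⟩ := Finset.mem_image.1 ha
      rw [mem_range]
      omega
    have hcard : J'.card = J.card := Finset.card_image_of_injOn hinj
    have h3 := h.adj.grid_bound hK1 hk hs₀ hKκ hM θ' J' hJ'sub y
    rw [hcard, ← hQ, Finset.sum_image hinj] at h3
    refine le_trans (le_of_eq ?_) h3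
    refine Finset.sum_congr rfl fun j hj => ?_
    show _ = ((1 / (M : ℝ)) * ‖(R ((starRingEnd ℂ) (zz M θ' (M - 1 - j)))).adjoint y‖) ^ 2
    rw [zz_conj M θ (mem_range.1 (hJ hj))]
  -- Cauchy-Schwarz
  set A := ∑ j ∈ J, ((1 / (M : ℝ)) * ‖R (zz M θ j) x‖) ^ 2 with hA
  set B := ∑ j ∈ J, ((1 / (M : ℝ)) * ‖(R (zz M θ j)).adjoint y‖) ^ 2 with hB
  have hCS : (∑ j ∈ J, ((1 / (M : ℝ)) * ‖R (zz M θ j) x‖) *
      ((1 / (M : ℝ)) * ‖(R (zz M θ j)).adjoint y‖)) ^ 2 ≤ A * B :=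
    Finset.sum_mul_sq_le_sq_mul_sq _ _ _
  set W := ∑ j ∈ J, ((1 / (M : ℝ)) * ‖R (zz M θ j) x‖) *
      ((1 / (M : ℝ)) * ‖(R (zz M θ j)).adjoint y‖) with hW
  have hW0 : 0 ≤ W := Finset.sum_nonneg fun j _ => by positivity
  have hAB : A * B ≤ (Q * (‖x‖ * ‖y‖)) ^ 2 := by
    have hB0 : 0 ≤ B := Finset.sum_nonneg fun j _ => sq_nonneg _
    calc A * B ≤ (Q * ‖x‖ ^ 2) * (Q * ‖y‖ ^ 2) := mul_le_mul h1 h2 hB0 (by positivity)
      _ = _ := by ring
  have hWle : W ≤ Q * (‖x‖ * ‖y‖) := by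
    refine le_of_sq_le_sq ?_ (by positivity)
    exact hCS.trans hAB
  have hWe : ∑ j ∈ J, ‖R (zz M θ j) x‖ * ‖(R (zz M θ j)).adjoint y‖ = (M : ℝ) ^ 2 * W := by
    rw [hW, Finset.mul_sum]
    refine Finset.sum_congr rfl fun j _ => ?_
    field_simp
  rw [hWe]
  calc (M : ℝ) ^ 2 * W ≤ (M : ℝ) ^ 2 * (Q * (‖x‖ * ‖y‖)) :=
        mul_le_mul_of_nonneg_left hWle (sq_nonneg _)
    _ = _ := by ring

/-- **Main bound.** -/
theorem KR.main [FiniteDimensional ℂ E] [CompleteSpace E] (h : KR T K R) (hK1 : 1 ≤ K) {k : ℕ}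
    (hk : 2 ≤ k) (hKk : K ^ 2 * (1 - (1 / (51200 * (k : ℝ))) ^ 2) ≤ 1) (n : ℕ) :
    ‖T ^ n‖ ≤ 32 * (1 + K) * (CC k K * ((16 * Module.finrank ℂ E : ℕ) : ℝ) ^ (1 / (k : ℝ))) := by
  have hQ0 : 0 ≤ CC k K * ((16 * Module.finrank ℂ E : ℕ) : ℝ) ^ (1 / (k : ℝ)) :=
    mul_nonneg (CC_nonneg k K) (by positivity)
  refine h.power_bound n hQ0 ?_
  intro τ J hJ hcard x y
  have h1 := h.pair_bound hK1 hk rfl hKk (M := 2 * (n + 1)) (by omega) τ J hJ x y
  refine h1.trans ?_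
  refine mul_le_mul_of_nonneg_right ?_ (by positivity)
  refine mul_le_mul_of_nonneg_right ?_ (by positivity)
  refine mul_le_mul_of_nonneg_left ?_ (CC_nonneg k K)
  exact Real.rpow_le_rpow (by positivity) (by exact_mod_cast hcard) (by positivity)

end Pool.Agent.H612K
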