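import Pool.Agent.H612K.K13

/-!
# Kreiss condition, part 14: numerical consequences
-/

open scoped InnerProductSpace
open Finset

namespace Pool.Agent.H612K

variable {E : Type*} [NormedAddCommGroup E] [InnerProductSpace ℂ E]
variable {T : E →L[ℂ] E} {K : ℝ} {R : ℂ → E →L[ℂ] E}

theorem KR.final [FiniteDimensional ℂ E] [CompleteSpace E] (h : KR T K R) (hK1 : 1 ≤ K) {k : ℕ}
    (hk : 2 ≤ k) (hKk : K ≤ 1 + 1 / (10 ^ 10 * (k : ℝ) ^ 2)) (n : ℕ) :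
    ‖T ^ n‖ ≤ 10 ^ 14 * (k : ℝ) ^ 2 * ((Module.finrank ℂ E : ℕ) : ℝ) ^ (1 / (k : ℝ)) := by
  have hkR : (2 : ℝ) ≤ k := by exact_mod_cast hk
  set q : ℝ := 1 / (k : ℝ) ^ 2 with hq
  have hq0 : 0 < q := by rw [hq]; positivity
  have hq1 : q ≤ 1 / 4 := by
    rw [hq, div_le_div_iff₀ (by positivity) (by norm_num)]
    nlinarith
  have hKq : K ≤ 1 + q / 10 ^ 10 := by
    have : 1 / (10 ^ 10 * (k : ℝ) ^ 2) = q / 10 ^ 10 := by rw [hq]; field_simp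
    rwa [this] at hKk
  have hK2 : K ^ 2 ≤ 1 + 3 * q / 10 ^ 10 := by
    have : K ^ 2 ≤ (1 + q / 10 ^ 10) ^ 2 := pow_le_pow_left₀ (by linarith) hKq 2
    nlinarith
  have hcond : K ^ 2 * (1 - (1 / (51200 * (k : ℝ))) ^ 2) ≤ 1 := by
    have e1 : (1 / (51200 * (k : ℝ))) ^ 2 = q / 51200 ^ 2 := by rw [hq]; field_simp
    rw [e1]
    have h1 : 0 ≤ 1 - q / 51200 ^ 2 := by linarith
    calc K ^ 2 * (1 - q / 51200 ^ 2) ≤ (1 + 3 * q / 10 ^ 10) * (1 - q / 51200 ^ 2) :=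
          mul_le_mul_of_nonneg_right hK2 h1
      _ ≤ 1 := by nlinarith [sq_nonneg q]
  have h1 := h.main hK1 hk hcond n
  set N : ℕ := Module.finrank ℂ E with hN
  set ρ : ℝ := (N : ℝ) ^ (1 / (k : ℝ)) with hρ
  have hρ0 : 0 ≤ ρ := by positivity
  have e2 : ((16 * N : ℕ) : ℝ) ^ (1 / (k : ℝ)) ≤ 4 * ρ := by
    push_cast
    rw [Real.mul_rpow (by norm_num) (by positivity)]
    refine mul_le_mul_of_nonneg_right ?_ hρ0
    have h2 : (16 : ℝ) ^ (1 / (k : ℝ)) ≤ (16 : ℝ) ^ (1 / 2 : ℝ) := by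
      refine Real.rpow_le_rpow_of_exponent_le (by norm_num) ?_
      rw [div_le_div_iff₀ (by positivity) (by norm_num)]
      linarith
    have h3 : (16 : ℝ) ^ (1 / 2 : ℝ) = 4 := by
      rw [← Real.sqrt_eq_rpow, show (16 : ℝ) = 4 ^ 2 by norm_num, Real.sqrt_sq (by norm_num)]
    linarith
  refine h1.trans ?_
  unfold CC
  have hK3 : K ^ 2 ≤ 1.1 := by linarith
  have hK4 : K ≤ 1.1 := by linarith
  have hk2 : 0 ≤ (k : ℝ) ^ 2 := by positivity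
  have h5 : 204800 * (k : ℝ) * (10 ^ 6 * k * K ^ 2) ≤ 204800 * 10 ^ 6 * 1.1 * (k : ℝ) ^ 2 := by
    have : 204800 * (k : ℝ) * (10 ^ 6 * k * K ^ 2) = 204800 * 10 ^ 6 * (k : ℝ) ^ 2 * K ^ 2 := by ring
    rw [this]
    nlinarith
  have h6 : 204800 * (k : ℝ) * (10 ^ 6 * k * K ^ 2) * ((16 * N : ℕ) : ℝ) ^ (1 / (k : ℝ)) ≤
      (204800 * 10 ^ 6 * 1.1 * (k : ℝ) ^ 2) * (4 * ρ) :=
    mul_le_mul h5 e2 (by positivity) (by positivity)
  have h7 : 32 * (1 + K) ≤ 32 * 2.1 := by linarith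
  calc _ ≤ (32 * 2.1) * ((204800 * 10 ^ 6 * 1.1 * (k : ℝ) ^ 2) * (4 * ρ)) :=
        mul_le_mul h7 h6 (by positivity) (by norm_num)
    _ ≤ 10 ^ 14 * (k : ℝ) ^ 2 * ρ := by
        have : 0 ≤ (k : ℝ) ^ 2 * ρ := by positivity
        nlinarith

end Pool.Agent.H612K
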