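import Pool.Agent.H612K.K1

/-!
# Kreiss condition, part 2: matrix elements of the resolvent are rational
-/

open scoped InnerProductSpace
open Polynomial

namespace Pool.Agent.H612K

variable {E : Type*} [NormedAddCommGroup E] [InnerProductSpace ℂ E]
variable {T : E →L[ℂ] E} {K : ℝ} {R : ℂ → E →L[ℂ] E}

theorem clm_pow_coe (T : E →L[ℂ] E) (n : ℕ) (x : E) :
    ((T : E →ₗ[ℂ] E) ^ n) x = (T ^ n) x := by
  induction n generalizing x with
  | zero => simp
  | succ n ih =>
    rw [pow_succ, pow_succ]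
    exact ih (T x)

theorem KR.res_geom (h : KR T K R) {z : ℂ} (hz : 1 < ‖z‖) (n : ℕ) (x : E) :
    R z (z ^ n • x - (T ^ n) x) = ∑ i ∈ Finset.range n, z ^ i • (T ^ (n - 1 - i)) x := by
  have hc : Commute (z • (1 : E →L[ℂ] E)) T := by
    unfold Commute SemiconjBy
    rw [smul_mul_assoc, one_mul, mul_smul_comm, mul_one]
  have h1 := hc.mul_geom_sum₂ n
  have h2 : R z * ((z • (1 : E →L[ℂ] E)) ^ n - T ^ n) =
      ∑ i ∈ Finset.range n, (z • (1 : E →L[ℂ] E)) ^ i * T ^ (n - 1 - i) := by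
    rw [← h1, ← mul_assoc, h.left z hz, one_mul]
  have hp : ∀ i : ℕ, (z • (1 : E →L[ℂ] E)) ^ i = z ^ i • (1 : E →L[ℂ] E) := by
    intro i
    rw [_root_.smul_pow, one_pow]
  simp only [hp, smul_mul_assoc, one_mul] at h2
  have h3 : (R z * (z ^ n • (1 : E →L[ℂ] E) - T ^ n)) x =
      (∑ i ∈ Finset.range n, z ^ i • T ^ (n - 1 - i)) x := by rw [h2]
  rw [ContinuousLinearMap.sum_apply] at h3
  exact h3

theorem KR.ratD [FiniteDimensional ℂ E] (h : KR T K R) (x y : E) :
    RatD (Module.finrank ℂ E) (fun z => ⟪y, R z x⟫_ℂ) := by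
  classical
  set N := Module.finrank ℂ E with hN
  set χ := (T : E →ₗ[ℂ] E).charpoly with hχ
  have hdeg : χ.natDegree = N := (T : E →ₗ[ℂ] E).charpoly_natDegree
  set P : ℂ[X] := ∑ n ∈ Finset.range (N + 1), ∑ i ∈ Finset.range n,
    C (χ.coeff n * ⟪y, (T ^ (n - 1 - i)) x⟫_ℂ) * X ^ i with hP
  refine ⟨P, χ, ?_, hdeg.le, fun z hz => ?_⟩
  · refine natDegree_sum_le_of_forall_le _ _ fun n hn => ?_
    refine natDegree_sum_le_of_forall_le _ _ fun i hi => ?_
    refine (natDegree_C_mul_X_pow_le _ _).trans ?_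
    have h1 := Finset.mem_range.1 hn
    have h2 := Finset.mem_range.1 hi
    omega
  have hχz : χ.eval z ≠ 0 := by
    intro h0
    have h1 : Module.End.HasEigenvalue (T : E →ₗ[ℂ] E) z := by
      rw [Module.End.hasEigenvalue_iff_isRoot_charpoly]
      exact h0
    obtain ⟨v, hv⟩ := h1.exists_hasEigenvector
    have h2 : T v = z • v := hv.apply_eq_smul
    have h3 := h.left' hz v
    rw [h2, sub_self, map_zero] at h3
    exact hv.2 h3.symm
  refine ⟨hχz, ?_⟩
  -- `χ(T) = 0`
  have h0 : ∑ n ∈ Finset.range (N + 1), χ.coeff n • (T ^ n) x = 0 := by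
    have h1 : aeval (T : E →ₗ[ℂ] E) χ = 0 := LinearMap.aeval_self_charpoly _
    rw [aeval_eq_sum_range, hdeg] at h1
    have h2 := congrArg (fun S : E →ₗ[ℂ] E => S x) h1
    simp only [LinearMap.sum_apply, LinearMap.smul_apply, LinearMap.zero_apply] at h2
    rw [← h2]
    exact Finset.sum_congr rfl fun n _ => by rw [clm_pow_coe]
  have h1 : χ.eval z • x = ∑ n ∈ Finset.range (N + 1),
      χ.coeff n • (z ^ n • x - (T ^ n) x) := by
    simp only [smul_sub, Finset.sum_sub_distrib]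
    rw [h0, sub_zero, eval_eq_sum_range, hdeg, Finset.sum_smul]
    exact Finset.sum_congr rfl fun n _ => by rw [smul_smul]
  have h2 : χ.eval z • R z x = ∑ n ∈ Finset.range (N + 1),
      χ.coeff n • ∑ i ∈ Finset.range n, z ^ i • (T ^ (n - 1 - i)) x := by
    rw [← map_smul, h1, map_sum]
    exact Finset.sum_congr rfl fun n _ => by rw [map_smul, h.res_geom hz]
  have h3 : χ.eval z * ⟪y, R z x⟫_ℂ = P.eval z := by
    rw [← inner_smul_right, h2, inner_sum, hP, eval_finsetSum]
    refine Finset.sum_congr rfl fun n _ => ?_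
    rw [inner_smul_right, inner_sum, eval_finsetSum, Finset.mul_sum]
    refine Finset.sum_congr rfl fun i _ => ?_
    rw [inner_smul_right, eval_mul, eval_C, eval_pow, eval_X]
    ring
  show ⟪y, R z x⟫_ℂ = _
  rw [← h3]
  field_simp

end Pool.Agent.H612K
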