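import Mathlib

/-!
# Kreiss condition, part 3: sign changes and discrete total variation
-/

open Finset

namespace Pool.Agent.H612K

/-- discrete total variation of a periodic sequence, in terms of the sign changes of its
differences -/
theorem tv_bound (M : ℕ) (G : ℕ → ℝ) (hG : ∀ j, G (j + M) = G j) :
    ∑ j ∈ range M, |G (j + 1) - G j| ≤
      2 * ∑ j ∈ (range M).filter
        (fun j => ¬ (0 ≤ G (j + 1) - G j ↔ 0 ≤ G (j + 2) - G (j + 1))), |G (j + 1)| := by
  classical
  set s : ℕ → ℝ := fun j => if 0 ≤ G (j + 1) - G j then 1 else -1 with hs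
  have hsM : s M = s 0 := by
    have h1 : G (M + 1) = G 1 := by rw [add_comm]; exact hG 1
    have h0 : G M = G 0 := by have := hG 0; rwa [zero_add] at this
    simp only [hs, h1, h0, zero_add]
  have hGM : G M = G 0 := by have := hG 0; rwa [zero_add] at this
  have e1 : ∀ j, |G (j + 1) - G j| = s j * (G (j + 1) - G j) := by
    intro j
    simp only [hs]
    split_ifs with h
    · rw [abs_of_nonneg h, one_mul]
    · rw [abs_of_neg (not_le.1 h)]; ring
  have e2 : ∑ j ∈ range M, s j * G j = ∑ j ∈ range M, s (j + 1) * G (j + 1) := by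
    have h1 := Finset.sum_range_succ (fun j => s j * G j) M
    have h2 := Finset.sum_range_succ' (fun j => s j * G j) M
    rw [h1] at h2
    simp only [hsM, hGM] at h2
    linarith
  calc ∑ j ∈ range M, |G (j + 1) - G j| = ∑ j ∈ range M, s j * (G (j + 1) - G j) :=
        Finset.sum_congr rfl fun j _ => e1 j
    _ = ∑ j ∈ range M, s j * G (j + 1) - ∑ j ∈ range M, s j * G j := by
        rw [← Finset.sum_sub_distrib]
        exact Finset.sum_congr rfl fun j _ => by ring
    _ = ∑ j ∈ range M, (s j - s (j + 1)) * G (j + 1) := by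
        rw [e2, ← Finset.sum_sub_distrib]
        exact Finset.sum_congr rfl fun j _ => by ring
    _ ≤ ∑ j ∈ range M, (if ¬ (0 ≤ G (j + 1) - G j ↔ 0 ≤ G (j + 2) - G (j + 1)) then
          2 * |G (j + 1)| else 0) := by
        refine Finset.sum_le_sum fun j _ => ?_
        have habs := le_abs_self (G (j + 1))
        have habs' := neg_abs_le (G (j + 1))
        simp only [hs, show j + 1 + 1 = j + 2 from rfl]
        split_ifs with h1 h2 h3 h3 <;> first | (exfalso; tauto) | (simp; try linarith) | linarith
    _ = 2 * ∑ j ∈ (range M).filter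
        (fun j => ¬ (0 ≤ G (j + 1) - G j ↔ 0 ≤ G (j + 2) - G (j + 1))), |G (j + 1)| := by
        rw [Finset.mul_sum, Finset.sum_filter]

/-- sign changes of a real continuous function at grid points, counted by zeros on the circle -/
theorem sign_count {f : ℂ → ℂ} {r : ℝ} (hr : 1 < r) (Z : Finset ℂ)
    (hZ : ∀ z : ℂ, ‖z‖ = r → (f z).re = 0 → z ∈ Z)
    (hcont : Continuous fun t : ℝ => (f (r * Complex.exp (t * Complex.I))).re)
    (M : ℕ) (hM : 0 < M) (τ : ℝ) :
    ((range M).filter (fun j : ℕ =>
      ¬ (0 ≤ (f (r * Complex.exp ((τ + j * (2 * Real.pi / M) : ℝ) * Complex.I))).re ↔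
        0 ≤ (f (r * Complex.exp ((τ + (j + 1 : ℕ) * (2 * Real.pi / M) : ℝ) *
          Complex.I))).re))).card ≤ 2 * Z.card := by
  classical
  set δ : ℝ := 2 * Real.pi / M with hδ
  have hMR : (0 : ℝ) < M := by exact_mod_cast hM
  have hδ0 : 0 < δ := by rw [hδ]; positivity
  have hMδ : (M : ℝ) * δ = 2 * Real.pi := by rw [hδ]; field_simp
  set D : ℝ → ℝ := fun t => (f (r * Complex.exp (t * Complex.I))).re with hD
  set t : ℕ → ℝ := fun j => τ + j * δ with ht
  have htlt : ∀ j, t j < t (j + 1) := by
    intro j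
    simp only [ht]
    push_cast
    nlinarith
  have htmono : ∀ i j : ℕ, i ≤ j → t i ≤ t j := by
    intro i j hij
    simp only [ht]
    have : (i : ℝ) ≤ j := by exact_mod_cast hij
    nlinarith
  have hnorm : ∀ s : ℝ, ‖(r : ℂ) * Complex.exp (s * Complex.I)‖ = r := by
    intro s
    rw [norm_mul, Complex.norm_exp_ofReal_mul_I, mul_one, Complex.norm_real, Real.norm_eq_abs,
      abs_of_pos (by linarith)]
  have hr0 : (r : ℂ) ≠ 0 := by exact_mod_cast (by linarith : r ≠ 0)
  have hinj : ∀ s s' : ℝ, |s - s'| < 2 * Real.pi →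
      (r : ℂ) * Complex.exp (s * Complex.I) = (r : ℂ) * Complex.exp (s' * Complex.I) →
      s = s' := by
    intro s s' hlt h
    have h1 := mul_left_cancel₀ hr0 h
    rw [Complex.exp_eq_exp_iff_exists_int] at h1
    obtain ⟨n, hn⟩ := h1
    have h2 : s = s' + n * (2 * Real.pi) := by
      have h3 := congrArg Complex.im hn
      simpa using h3
    have h4 : |(n : ℝ)| * (2 * Real.pi) < 2 * Real.pi := by
      rw [h2] at hlt
      have : s' + (n : ℝ) * (2 * Real.pi) - s' = n * (2 * Real.pi) := by ring
      rw [this, abs_mul, abs_of_pos (by positivity : (0 : ℝ) < 2 * Real.pi)] at hlt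
      exact hlt
    have h5 : |(n : ℝ)| < 1 := by
      have hp : (0 : ℝ) < 2 * Real.pi := by positivity
      by_contra hcon
      rw [not_lt] at hcon
      nlinarith
    have h6 : n = 0 := by
      have : |n| < 1 := by exact_mod_cast h5
      exact Int.abs_lt_one_iff.1 this
    rw [h2, h6]; simp
  -- the two kinds of sign changes
  set J₁ := (range M).filter (fun j : ℕ => 0 ≤ D (t j) ∧ D (t (j + 1)) < 0) with hJ₁
  set J₂ := (range M).filter (fun j : ℕ => D (t j) < 0 ∧ 0 ≤ D (t (j + 1))) with hJ₂
  have hsub : ((range M).filter (fun j : ℕ =>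
      ¬ (0 ≤ (f (r * Complex.exp ((τ + j * δ : ℝ) * Complex.I))).re ↔
        0 ≤ (f (r * Complex.exp ((τ + (j + 1 : ℕ) * δ : ℝ) *
          Complex.I))).re))) ⊆ J₁ ∪ J₂ := by
    intro j hj
    rw [mem_filter] at hj
    obtain ⟨hj1, hj2⟩ := hj
    have hj2' : ¬ (0 ≤ D (t j) ↔ 0 ≤ D (t (j + 1))) := hj2
    rw [mem_union, hJ₁, hJ₂, mem_filter, mem_filter]
    by_cases h1 : 0 ≤ D (t j)
    · left
      refine ⟨hj1, h1, ?_⟩
      by_contra h2
      exact hj2' ⟨fun _ => not_lt.1 h2, fun _ => h1⟩
    · right
      refine ⟨hj1, not_le.1 h1, ?_⟩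
      by_contra h2
      exact hj2' ⟨fun h => absurd h h1, fun h => absurd h h2⟩
  have hc1 : J₁.card ≤ Z.card := by
    have hex : ∀ j ∈ J₁, ∃ s : ℝ, t j ≤ s ∧ s < t (j + 1) ∧ D s = 0 := by
      intro j hj
      rw [hJ₁, mem_filter] at hj
      obtain ⟨_, h1, h2⟩ := hj
      have := intermediate_value_Icc' (htlt j).le (hcont.continuousOn (s := Set.Icc _ _))
      obtain ⟨s, hs, hs0⟩ := this ⟨h2.le, h1⟩
      refine ⟨s, hs.1, lt_of_le_of_ne hs.2 ?_, hs0⟩
      rintro rfl
      have : D (t (j + 1)) = 0 := hs0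
      linarith
    choose! s hs1 hs2 hs3 using hex
    refine Finset.card_le_card_of_injOn
      (fun j => (r : ℂ) * Complex.exp (s j * Complex.I)) ?_ ?_
    · intro j hj
      exact hZ _ (hnorm _) (hs3 j hj)
    · intro i hi j hj hij
      have hi' := (mem_filter.1 hi).1
      have hj' := (mem_filter.1 hj).1
      have hiM : i + 1 ≤ M := mem_range.1 hi'
      have hjM : j + 1 ≤ M := mem_range.1 hj'
      have b1 := hs1 i hi
      have b2 := hs2 i hi
      have b3 := hs1 j hj
      have b4 := hs2 j hj
      have c1 : t (i + 1) ≤ t 0 + 2 * Real.pi := by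
        have := htmono _ _ hiM
        have e : t M = t 0 + 2 * Real.pi := by simp only [ht]; rw [hMδ]; simp
        linarith
      have c2 : t (j + 1) ≤ t 0 + 2 * Real.pi := by
        have := htmono _ _ hjM
        have e : t M = t 0 + 2 * Real.pi := by simp only [ht]; rw [hMδ]; simp
        linarith
      have c3 := htmono 0 i (Nat.zero_le _)
      have c4 := htmono 0 j (Nat.zero_le _)
      have hss : s i = s j := by
        refine hinj _ _ ?_ hij
        rw [abs_lt]; constructor <;> linarith
      rcases lt_trichotomy i j with hlt | heq | hgt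
      · have := htmono (i + 1) j hlt
        linarith
      · exact heq
      · have := htmono (j + 1) i hgt
        linarith
  have hc2 : J₂.card ≤ Z.card := by
    have hex : ∀ j ∈ J₂, ∃ s : ℝ, t j < s ∧ s ≤ t (j + 1) ∧ D s = 0 := by
      intro j hj
      rw [hJ₂, mem_filter] at hj
      obtain ⟨_, h1, h2⟩ := hj
      have := intermediate_value_Icc (htlt j).le (hcont.continuousOn (s := Set.Icc _ _))
      obtain ⟨s, hs, hs0⟩ := this ⟨h1.le, h2⟩
      refine ⟨s, lt_of_le_of_ne hs.1 ?_, hs.2, hs0⟩
      intro he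
      have : D (t j) = 0 := by rw [he]; exact hs0
      linarith
    choose! s hs1 hs2 hs3 using hex
    refine Finset.card_le_card_of_injOn
      (fun j => (r : ℂ) * Complex.exp (s j * Complex.I)) ?_ ?_
    · intro j hj
      exact hZ _ (hnorm _) (hs3 j hj)
    · intro i hi j hj hij
      have hi' := (mem_filter.1 hi).1
      have hj' := (mem_filter.1 hj).1
      have hiM : i + 1 ≤ M := mem_range.1 hi'
      have hjM : j + 1 ≤ M := mem_range.1 hj'
      have b1 := hs1 i hi
      have b2 := hs2 i hi
      have b3 := hs1 j hj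
      have b4 := hs2 j hj
      have c1 : t (i + 1) ≤ t 0 + 2 * Real.pi := by
        have := htmono _ _ hiM
        have e : t M = t 0 + 2 * Real.pi := by simp only [ht]; rw [hMδ]; simp
        linarith
      have c2 : t (j + 1) ≤ t 0 + 2 * Real.pi := by
        have := htmono _ _ hjM
        have e : t M = t 0 + 2 * Real.pi := by simp only [ht]; rw [hMδ]; simp
        linarith
      have c3 := htmono 0 i (Nat.zero_le _)
      have c4 := htmono 0 j (Nat.zero_le _)
      have hss : s i = s j := by
        refine hinj _ _ ?_ hij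
        rw [abs_lt]; constructor <;> linarith
      rcases lt_trichotomy i j with hlt | heq | hgt
      · have := htmono (i + 1) j hlt
        linarith
      · exact heq
      · have := htmono (j + 1) i hgt
        linarith
  calc _ ≤ (J₁ ∪ J₂).card := Finset.card_le_card hsub
    _ ≤ J₁.card + J₂.card := Finset.card_union_le _ _
    _ ≤ 2 * Z.card := by omega

end Pool.Agent.H612K
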