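import Pool.Agent.H612K.K1

/-!
# Kreiss condition, part 6: near orthogonality and elementary geometry
-/

open scoped InnerProductSpace

namespace Pool.Agent.H612K

variable {E : Type*} [NormedAddCommGroup E] [InnerProductSpace ℂ E]
variable {T : E →L[ℂ] E} {K : ℝ} {R : ℂ → E →L[ℂ] E}

/-- near orthogonality of `x₁ = L e R((1+L)e) x` and `x₂ = x - x₁` -/
theorem KR.near_orth (h : KR T K R) {κ : ℝ} (hκ0 : 0 < κ) (hκ1 : κ < 1)
    (hKκ : K ^ 2 * (1 - κ ^ 2) ≤ 1) {e : ℂ} (he : ‖e‖ = 1) {L : ℝ} (hL : 0 < L) (x : E) :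
    (1 - κ) * (‖((L : ℂ) * e) • R ((1 + L : ℝ) * e) x‖ ^ 2 +
      ‖x - ((L : ℂ) * e) • R ((1 + L : ℝ) * e) x‖ ^ 2) ≤ ‖x‖ ^ 2 := by
  set z₀ : ℂ := (1 + L : ℝ) * e with hz₀
  set x₁ : E := ((L : ℂ) * e) • R z₀ x with hx₁
  set x₂ : E := x - x₁ with hx₂
  have hnorm : ∀ s : ℝ, 0 < s → ‖((1 + s : ℝ) : ℂ) * e‖ = 1 + s := by
    intro s hs
    rw [norm_mul, he, mul_one, Complex.norm_real, Real.norm_eq_abs, abs_of_pos (by linarith)]
  have hK := h.K_nonneg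
  have hz₀n : 1 < ‖z₀‖ := by rw [hz₀, hnorm L hL]; linarith
  have h1 : z₀ • x₁ - T x₁ = ((L : ℂ) * e) • x := by
    rw [hx₁, map_smul, smul_comm, ← smul_sub, h.right' hz₀n]
  clear_value x₁
  -- the Kreiss condition along the ray
  have hray : ∀ t : ℝ, 0 < t → t * ‖x₁‖ ≤ K * ‖(t : ℂ) • x₁ + x₂‖ := by
    intro t ht
    have hs : 0 < L * t := by positivity
    set z : ℂ := ((1 + L * t : ℝ) : ℂ) * e with hz
    have hzn : ‖z‖ = 1 + L * t := hnorm _ hs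
    have h2 : z • x₁ - T x₁ = ((L : ℂ) * e) • ((t : ℂ) • x₁ + x₂) := by
      have h3 : z • x₁ - T x₁ = (z - z₀) • x₁ + (z₀ • x₁ - T x₁) := by
        rw [sub_smul]; abel
      have hzz : z - z₀ = (L : ℂ) * e * t - (L : ℂ) * e := by
        rw [hz, hz₀]; push_cast; ring
      rw [h3, h1, hzz, hx₂]
      module
    have h3 : x₁ = R z (((L : ℂ) * e) • ((t : ℂ) • x₁ + x₂)) := by
      rw [← h2, h.left' (by rw [hzn]; linarith)]
    have h4 : ‖x₁‖ ≤ K / (L * t) * (L * ‖(t : ℂ) • x₁ + x₂‖) := by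
      have h5 := h.bound' (z := z) (by rw [hzn]; linarith)
        (((L : ℂ) * e) • ((t : ℂ) • x₁ + x₂))
      rw [← h3, hzn, norm_smul, norm_mul, he, mul_one, Complex.norm_real, Real.norm_eq_abs,
        abs_of_pos hL, add_sub_cancel_left] at h5
      exact h5
    have h5 : K / (L * t) * (L * ‖(t : ℂ) • x₁ + x₂‖) = K * ‖(t : ℂ) • x₁ + x₂‖ / t := by
      field_simp
    rw [h5, le_div_iff₀ ht] at h4
    linarith
  set a := ‖x₁‖ with ha
  set b := ‖x₂‖ with hb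
  set m := RCLike.re ⟪x₁, x₂⟫_ℂ with hm
  have ha0 : 0 ≤ a := norm_nonneg _
  have hb0 : 0 ≤ b := norm_nonneg _
  have hmab : |m| ≤ a * b := by
    rw [hm]
    exact (RCLike.abs_re_le_norm _).trans (norm_inner_le_norm _ _)
  have hexp : ∀ t : ℝ, ‖(t : ℂ) • x₁ + x₂‖ ^ 2 = t ^ 2 * a ^ 2 + 2 * t * m + b ^ 2 := by
    intro t
    rw [@norm_add_sq ℂ, norm_smul, inner_smul_left, Complex.conj_ofReal, Complex.norm_real,
      mul_pow, Real.norm_eq_abs, sq_abs]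
    have : RCLike.re ((t : ℂ) * ⟪x₁, x₂⟫_ℂ) = t * m := by
      rw [hm]
      exact Complex.re_ofReal_mul _ _
    rw [this]
    ring
  have hmlow : -(κ * (a * b)) ≤ m := by
    rcases ha0.eq_or_lt with h0 | hapos
    · rw [← h0, zero_mul] at hmab
      have : m = 0 := abs_nonpos_iff.1 hmab
      rw [this, ← h0]; simp
    rcases hb0.eq_or_lt with h0 | hbpos
    · rw [← h0, mul_zero] at hmab
      have : m = 0 := abs_nonpos_iff.1 hmab
      rw [this, ← h0]; simp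
    set t := b / (a * κ) with ht
    have htpos : 0 < t := by positivity
    have h2 := hray t htpos
    have h3 : (t * a) ^ 2 ≤ K ^ 2 * ‖(t : ℂ) • x₁ + x₂‖ ^ 2 := by
      rw [← mul_pow]
      exact pow_le_pow_left₀ (by positivity) h2 2
    have hY0 : 0 ≤ ‖(t : ℂ) • x₁ + x₂‖ ^ 2 := by positivity
    have hκ2 : 0 < 1 - κ ^ 2 := by nlinarith
    have h4 : (1 - κ ^ 2) * (t * a) ^ 2 ≤ ‖(t : ℂ) • x₁ + x₂‖ ^ 2 := by
      calc (1 - κ ^ 2) * (t * a) ^ 2 ≤ (1 - κ ^ 2) * (K ^ 2 * ‖(t : ℂ) • x₁ + x₂‖ ^ 2) :=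
            mul_le_mul_of_nonneg_left h3 hκ2.le
        _ = (K ^ 2 * (1 - κ ^ 2)) * ‖(t : ℂ) • x₁ + x₂‖ ^ 2 := by ring
        _ ≤ 1 * ‖(t : ℂ) • x₁ + x₂‖ ^ 2 := mul_le_mul_of_nonneg_right hKκ hY0
        _ = _ := one_mul _
    rw [hexp t] at h4
    have hta : t * a * κ = b := by rw [ht]; field_simp
    have h5 : 0 ≤ κ ^ 2 * (t * a) ^ 2 + 2 * t * m + b ^ 2 := by nlinarith
    have h6 : κ ^ 2 * (t * a) ^ 2 = b ^ 2 := by rw [← hta]; ring
    rw [h6] at h5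
    have h7 : 0 ≤ b ^ 2 + t * m := by linarith
    have h8 : 0 ≤ a * κ * (b ^ 2 + t * m) := by positivity
    have h9 : a * κ * (b ^ 2 + t * m) = b * (κ * (a * b) + m) := by
      have : a * κ * t = b := by rw [← hta]; ring
      linear_combination (m) * this
    rw [h9] at h8
    have h10 := nonneg_of_mul_nonneg_right h8 hbpos
    linarith
  have hx : ‖x‖ ^ 2 = a ^ 2 + 2 * m + b ^ 2 := by
    have h2 := hexp 1
    have h3 : ((1 : ℝ) : ℂ) • x₁ + x₂ = x := by rw [hx₂]; simp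
    rw [h3] at h2
    rw [h2]; ring
  rw [hx]
  nlinarith [sq_nonneg (a - b), mul_nonneg ha0 hb0]

/-! ### geometry of two circles -/

/-- `D = |(1+L) - (1+σ)v|²` with `u = 2(1 - cos t)` -/
def DD (L σ u : ℝ) : ℝ := (L - σ) ^ 2 + (1 + L) * (1 + σ) * u

theorem normSq_DD (L σ t : ℝ) :
    ‖((1 + L : ℝ) : ℂ) - ((1 + σ : ℝ) : ℂ) * Complex.exp (t * Complex.I)‖ ^ 2 =
      DD L σ (2 * (1 - Real.cos t)) := by
  rw [← Complex.normSq_eq_norm_sq, Complex.normSq_apply]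
  have h1 : (((1 + L : ℝ) : ℂ) - ((1 + σ : ℝ) : ℂ) * Complex.exp (t * Complex.I)).re =
      (1 + L) - (1 + σ) * Real.cos t := by
    rw [Complex.sub_re, Complex.re_ofReal_mul, Complex.exp_ofReal_mul_I_re, Complex.ofReal_re]
  have h2 : (((1 + L : ℝ) : ℂ) - ((1 + σ : ℝ) : ℂ) * Complex.exp (t * Complex.I)).im =
      - ((1 + σ) * Real.sin t) := by
    rw [Complex.sub_im, Complex.im_ofReal_mul, Complex.exp_ofReal_mul_I_im, Complex.ofReal_im]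
    ring
  rw [h1, h2]
  unfold DD
  have := Real.sin_sq_add_cos_sq t
  linear_combination (1 + σ) ^ 2 * this

theorem DD_pos {L σ u : ℝ} (hσ : 0 < σ) (hL : 100 * σ ≤ L) (hu : 0 ≤ u) :
    0.98 * L ^ 2 + u ≤ DD L σ u := by
  unfold DD
  have hL0 : 0 < L := by linarith
  nlinarith [mul_nonneg hL0.le hu, mul_nonneg hσ.le hu, mul_nonneg (mul_nonneg hL0.le hσ.le) hu]

/-- `c₁ = |f₁|²` -/
noncomputable def c1 (L σ u : ℝ) : ℝ := L ^ 2 / DD L σ u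

/-- `c₂ = |f₂|²` -/
noncomputable def c2 (L σ u : ℝ) : ℝ := (σ ^ 2 + (1 + σ) * u) / DD L σ u

theorem c1_nonneg {L σ u : ℝ} (hσ : 0 < σ) (hL : 100 * σ ≤ L) (hu : 0 ≤ u) :
    0 ≤ c1 L σ u := by
  have := DD_pos hσ hL hu
  have hL0 : 0 < L := by linarith
  unfold c1
  have h2 : 0 < DD L σ u := by nlinarith [sq_nonneg L, sq_pos_of_pos hL0]
  positivity

theorem c2_nonneg {L σ u : ℝ} (hσ : 0 < σ) (hL : 100 * σ ≤ L) (hu : 0 ≤ u) :
    0 ≤ c2 L σ u := by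
  have := DD_pos hσ hL hu
  have hL0 : 0 < L := by linarith
  unfold c2
  have h2 : 0 < DD L σ u := by nlinarith [sq_nonneg L, sq_pos_of_pos hL0]
  positivity

theorem c1_le {L σ u : ℝ} (hσ : 0 < σ) (hL : 100 * σ ≤ L) (hu : 0 ≤ u) :
    c1 L σ u ≤ 1.03 := by
  have := DD_pos hσ hL hu
  have hL0 : 0 < L := by linarith
  have h2 : 0 < DD L σ u := by nlinarith [sq_nonneg L, sq_pos_of_pos hL0]
  unfold c1
  rw [div_le_iff₀ h2]
  nlinarith [sq_pos_of_pos hL0]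

theorem c1_ge {L σ u : ℝ} (hσ : 0 < σ) (hL : 100 * σ ≤ L) (hL1 : L ≤ 1 / 100) (hu : 0 ≤ u)
    (hu1 : u ≤ L ^ 2) : 0.49 ≤ c1 L σ u := by
  have := DD_pos hσ hL hu
  have hL0 : 0 < L := by linarith
  have h2 : 0 < DD L σ u := by nlinarith [sq_nonneg L, sq_pos_of_pos hL0]
  unfold c1
  rw [le_div_iff₀ h2]
  unfold DD
  have hσ1 : σ ≤ 1 / 100 := by linarith
  have h3 : (1 + L) * (1 + σ) ≤ 1.0201 := by nlinarith
  have h4 : (1 + L) * (1 + σ) * u ≤ 1.0201 * L ^ 2 := by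
    calc (1 + L) * (1 + σ) * u ≤ 1.0201 * u := mul_le_mul_of_nonneg_right h3 hu
      _ ≤ 1.0201 * L ^ 2 := by linarith
  have h5 : (L - σ) ^ 2 ≤ L ^ 2 := by nlinarith
  nlinarith [sq_pos_of_pos hL0]

theorem c1_le_far {L σ u : ℝ} (hσ : 0 < σ) (hL : 100 * σ ≤ L) (hu : 1.6 * L ^ 2 ≤ u) :
    c1 L σ u ≤ 0.39 := by
  have hL0 : 0 < L := by linarith
  have hu0 : 0 ≤ u := le_trans (by positivity) hu
  have := DD_pos hσ hL hu0
  have h2 : 0 < DD L σ u := by nlinarith [sq_nonneg L, sq_pos_of_pos hL0]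
  unfold c1
  rw [div_le_iff₀ h2]
  nlinarith [sq_pos_of_pos hL0]

theorem c12 {L σ u s₀ : ℝ} (hσ : 0 < σ) (hL : 100 * σ ≤ L) (hL1 : L ≤ s₀)
    (hσL : 2.1 * σ ≤ s₀ * L) (hu : 0 ≤ u) : |c1 L σ u + c2 L σ u - 1| ≤ s₀ := by
  have hL0 : 0 < L := by linarith
  have := DD_pos hσ hL hu
  have h2 : 0 < DD L σ u := by nlinarith [sq_nonneg L, sq_pos_of_pos hL0]
  have e1 : c1 L σ u + c2 L σ u - 1 = (2 * L * σ - L * (1 + σ) * u) / DD L σ u := by
    unfold c1 c2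
    rw [← add_div, eq_div_iff h2.ne', sub_mul, div_mul_cancel₀ _ h2.ne']
    unfold DD
    ring
  have hs0 : 0 < s₀ := by linarith
  rw [e1, abs_le]
  constructor
  · rw [le_div_iff₀ h2]
    unfold DD
    have h3 : 0 ≤ (s₀ - L) * ((1 + σ) * u) := mul_nonneg (by linarith) (by positivity)
    have h4 : 0 ≤ s₀ * (L - σ) ^ 2 := by positivity
    have h5 : 0 ≤ s₀ * (L * (1 + σ) * u) := by positivity
    nlinarith [mul_pos hL0 hσ]
  · rw [div_le_iff₀ h2]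
    have h3 : 0 ≤ L * (1 + σ) * u := by positivity
    have h4 : 2 * L * σ ≤ s₀ * (0.98 * L ^ 2) := by nlinarith
    nlinarith [mul_nonneg hs0.le hu]

end Pool.Agent.H612K
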