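import Mathlib

/-!
# Kreiss condition, part 7: blocks and sums over the grid
-/

open Finset

namespace Pool.Agent.H612K

/-- `n_j = 2 (j - i) - w` -/
def nn (i w j : ℕ) : ℤ := 2 * ((j : ℤ) - i) - w

theorem block_lemma (S : Finset ℕ) (P : ℕ → ℝ) (hP : ∀ j ∈ S, 0 ≤ P j)
    (hsum : ∑ j ∈ S, P j = 1) (D : ℕ) (hD : ∀ i ∈ S, ∀ j ∈ S, j ≤ i + D) (m : ℕ) (hm1 : 1 ≤ m)
    (hm : ∀ i, ∑ j ∈ S.filter (fun j => i ≤ j ∧ j < i + m), P j < 1 / 8) :
    ∃ i w : ℕ, m ≤ w ∧ w ≤ D ∧
      1 / 8 ≤ ∑ j ∈ S.filter (fun j => |nn i w j| ≤ w), P j ∧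
      5 / 8 ≤ ∑ j ∈ S.filter (fun j => ¬ |nn i w j| ≤ 2 * w), P j := by
  classical
  have hne : S.Nonempty := by
    by_contra h
    rw [not_nonempty_iff_eq_empty] at h
    rw [h, sum_empty] at hsum
    norm_num at hsum
  let Q : ℕ → Prop := fun w => ∃ i, 1 / 8 ≤ ∑ j ∈ S.filter (fun j => i ≤ j ∧ j ≤ i + w), P j
  have hQD : Q D := by
    refine ⟨S.min' hne, ?_⟩
    have : S.filter (fun j => S.min' hne ≤ j ∧ j ≤ S.min' hne + D) = S := by
      refine Finset.filter_true_of_mem fun j hj => ⟨S.min'_le j hj, ?_⟩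
      exact hD _ (S.min'_mem hne) j hj
    rw [this, hsum]
    norm_num
  have hex : ∃ w, Q w := ⟨D, hQD⟩
  set w := Nat.find hex with hw
  have hwQ : Q w := Nat.find_spec hex
  have hwD : w ≤ D := Nat.find_min' hex hQD
  obtain ⟨i, hi⟩ := hwQ
  have hmw : m ≤ w := by
    by_contra hlt
    rw [not_le] at hlt
    have h1 := hm i
    have h2 : ∑ j ∈ S.filter (fun j => i ≤ j ∧ j ≤ i + w), P j ≤
        ∑ j ∈ S.filter (fun j => i ≤ j ∧ j < i + m), P j := by
      refine sum_le_sum_of_subset_of_nonneg ?_ ?_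
      · intro j hj
        rw [mem_filter] at hj ⊢
        exact ⟨hj.1, hj.2.1, by omega⟩
      · intro j hj _
        exact hP j (mem_filter.1 hj).1
    linarith
  have hw1 : 1 ≤ w := hm1.trans hmw
  have hshort : ∀ i', ∑ j ∈ S.filter (fun j => i' ≤ j ∧ j < i' + w), P j < 1 / 8 := by
    intro i'
    have h1 : ¬ Q (w - 1) := Nat.find_min hex (by omega)
    have h2 : ¬ (1 / 8 ≤ ∑ j ∈ S.filter (fun j => i' ≤ j ∧ j ≤ i' + (w - 1)), P j) :=
      fun h => h1 ⟨i', h⟩
    rw [not_le] at h2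
    have h3 : S.filter (fun j => i' ≤ j ∧ j < i' + w) =
        S.filter (fun j => i' ≤ j ∧ j ≤ i' + (w - 1)) := by
      refine Finset.filter_congr fun j _ => ?_
      omega
    rw [h3]
    exact h2
  refine ⟨i, w, hmw, hwD, ?_, ?_⟩
  · refine hi.trans (le_of_eq ?_)
    refine Finset.sum_congr (Finset.filter_congr fun j _ => ?_) fun _ _ => rfl
    unfold nn
    rw [abs_le]
    omega
  · -- complement
    set i' := i - w / 2 with hi'
    have h1 := hshort i'
    have h2 := hshort (i' + w)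
    have h3 := hshort (i' + w + w)
    have hsplit : ∑ j ∈ S.filter (fun j => |nn i w j| ≤ 2 * w), P j +
        ∑ j ∈ S.filter (fun j => ¬ |nn i w j| ≤ 2 * w), P j = 1 := by
      rw [← hsum]
      exact Finset.sum_filter_add_sum_filter_not S _ _
    have hle : ∑ j ∈ S.filter (fun j => |nn i w j| ≤ 2 * w), P j ≤
        ∑ j ∈ S.filter (fun j => i' ≤ j ∧ j < i' + w), P j +
        ∑ j ∈ S.filter (fun j => i' + w ≤ j ∧ j < i' + w + w), P j +
        ∑ j ∈ S.filter (fun j => i' + w + w ≤ j ∧ j < i' + w + w + w), P j := by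
      simp only [Finset.sum_filter]
      rw [← Finset.sum_add_distrib, ← Finset.sum_add_distrib]
      refine Finset.sum_le_sum fun j hj => ?_
      have hPj := hP j hj
      by_cases hc : |nn i w j| ≤ 2 * w
      · rw [if_pos hc]
        unfold nn at hc
        rw [abs_le] at hc
        have hcases : (i' ≤ j ∧ j < i' + w) ∨ (i' + w ≤ j ∧ j < i' + w + w) ∨
            (i' + w + w ≤ j ∧ j < i' + w + w + w) := by
          omega
        rcases hcases with hh | hh | hh
        · rw [if_pos hh, if_neg (by omega), if_neg (by omega)]; linarith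
        · rw [if_pos hh, if_neg (by omega), if_neg (by omega)]; linarith
        · rw [if_pos hh, if_neg (by omega), if_neg (by omega)]; linarith
      · rw [if_neg hc]
        have e1 : ∀ p : Prop, ∀ [Decidable p], 0 ≤ (if p then P j else 0) := by
          intro p _
          split_ifs
          · exact hPj
          · exact le_rfl
        have := e1 (i' ≤ j ∧ j < i' + w)
        have := e1 (i' + w ≤ j ∧ j < i' + w + w)
        have := e1 (i' + w + w ≤ j ∧ j < i' + w + w + w)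
        linarith
    linarith

/-- `∑ w² / (w² + n_j²) ≤ 4 w` -/
theorem sum_nn (S : Finset ℕ) (i w : ℕ) (hw : 1 ≤ w) :
    ∑ j ∈ S, (w : ℝ) ^ 2 / ((w : ℝ) ^ 2 + ((nn i w j : ℤ) : ℝ) ^ 2) ≤ 4 * w := by
  classical
  have hwR : (1 : ℝ) ≤ w := by exact_mod_cast hw
  set k : ℕ := (w - 1) / 2 with hk
  -- bound for the sum of inverse squares over an injective image inside `Ioo k n`
  have hkw : (2 : ℝ) / ((k : ℝ) + 1) ≤ 4 / w := by
    rw [div_le_div_iff₀ (by positivity) (by linarith)]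
    have : (w : ℝ) ≤ 2 * (k + 1) := by
      have : w ≤ 2 * (k + 1) := by omega
      exact_mod_cast this
    linarith
  have hinv : ∀ (A : Finset ℕ) (f : ℕ → ℕ), Set.InjOn f A → (∀ j ∈ A, k < f j) →
      ∑ j ∈ A, (((f j : ℕ) : ℝ) ^ 2)⁻¹ ≤ 4 / w := by
    intro A f hinj hgt
    rw [← Finset.sum_image (f := fun p : ℕ => ((p : ℝ) ^ 2)⁻¹) hinj]
    obtain ⟨n, hn⟩ : ∃ n, ∀ p ∈ A.image f, p < n := by
      refine ⟨(A.image f).sup id + 1, fun p hp => ?_⟩
      exact Nat.lt_succ_of_le (Finset.le_sup (f := id) hp)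
    refine le_trans (Finset.sum_le_sum_of_subset_of_nonneg (t := Finset.Ioo k n) ?_ ?_) ?_
    · intro p hp
      rw [Finset.mem_Ioo]
      refine ⟨?_, hn p hp⟩
      obtain ⟨j, hj, rfl⟩ := Finset.mem_image.1 hp
      exact hgt j hj
    · intro p _ _
      positivity
    · exact (sum_Ioo_inv_sq_le k n).trans hkw
  -- termwise bound
  have hterm : ∀ n : ℤ, ∀ p : ℕ, (2 * (p : ℤ) = w + |n|) →
      (w : ℝ) ^ 2 / ((w : ℝ) ^ 2 + (n : ℝ) ^ 2) ≤ (w : ℝ) ^ 2 / 2 * ((p : ℝ) ^ 2)⁻¹ := by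
    intro n p hp
    have h1 : (2 : ℝ) * p = w + |(n : ℝ)| := by exact_mod_cast hp
    have habs : 0 ≤ |(n : ℝ)| := abs_nonneg _
    have hp0 : (0 : ℝ) < p := by linarith
    rw [div_mul_eq_mul_div, div_le_div_iff₀ (by positivity) (by norm_num)]
    have h2 : ((w : ℝ) + |(n : ℝ)|) ^ 2 ≤ 2 * ((w : ℝ) ^ 2 + (n : ℝ) ^ 2) := by
      have := sq_abs (n : ℝ)
      nlinarith [sq_nonneg ((w : ℝ) - |(n : ℝ)|)]
    have h3 : 2 * (p : ℝ) ^ 2 ≤ ((w : ℝ) ^ 2 + (n : ℝ) ^ 2) := by
      rw [← h1] at h2; nlinarith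
    have h4 : (2 : ℝ) ≤ ((p : ℝ) ^ 2)⁻¹ * ((w : ℝ) ^ 2 + (n : ℝ) ^ 2) := by
      rw [inv_mul_eq_div, le_div_iff₀ (by positivity)]
      exact h3
    nlinarith [sq_nonneg (w : ℝ)]
  set A := S.filter (fun j => 0 ≤ nn i w j) with hA
  set B := S.filter (fun j => ¬ 0 ≤ nn i w j) with hB
  have hAB := Finset.sum_filter_add_sum_filter_not S (fun j => 0 ≤ nn i w j)
    (fun j => (w : ℝ) ^ 2 / ((w : ℝ) ^ 2 + ((nn i w j : ℤ) : ℝ) ^ 2))
  rw [← hAB]
  have hA1 : ∑ j ∈ A, (w : ℝ) ^ 2 / ((w : ℝ) ^ 2 + ((nn i w j : ℤ) : ℝ) ^ 2) ≤ 2 * w := by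
    calc _ ≤ ∑ j ∈ A, (w : ℝ) ^ 2 / 2 * (((j - i : ℕ) : ℝ) ^ 2)⁻¹ := by
          refine Finset.sum_le_sum fun j hj => hterm _ _ ?_
          have h1 := (mem_filter.1 hj).2
          rw [abs_of_nonneg h1]
          unfold nn at h1 ⊢
          omega
      _ = (w : ℝ) ^ 2 / 2 * ∑ j ∈ A, (((j - i : ℕ) : ℝ) ^ 2)⁻¹ := by rw [Finset.mul_sum]
      _ ≤ (w : ℝ) ^ 2 / 2 * (4 / w) := by
          refine mul_le_mul_of_nonneg_left (hinv A (fun j => j - i) ?_ ?_) (by positivity)
          · intro a ha b hb hab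
            have h1 := (mem_filter.1 ha).2
            have h2 := (mem_filter.1 hb).2
            unfold nn at h1 h2
            simp only at hab
            omega
          · intro j hj
            have h1 := (mem_filter.1 hj).2
            unfold nn at h1
            show k < j - i
            omega
      _ = 2 * w := by field_simp; ring
  have hB1 : ∑ j ∈ B, (w : ℝ) ^ 2 / ((w : ℝ) ^ 2 + ((nn i w j : ℤ) : ℝ) ^ 2) ≤ 2 * w := by
    calc _ ≤ ∑ j ∈ B, (w : ℝ) ^ 2 / 2 * (((i + w - j : ℕ) : ℝ) ^ 2)⁻¹ := by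
          refine Finset.sum_le_sum fun j hj => hterm _ _ ?_
          have h1 := (mem_filter.1 hj).2
          rw [not_le] at h1
          rw [abs_of_neg h1]
          unfold nn at h1 ⊢
          omega
      _ = (w : ℝ) ^ 2 / 2 * ∑ j ∈ B, (((i + w - j : ℕ) : ℝ) ^ 2)⁻¹ := by rw [Finset.mul_sum]
      _ ≤ (w : ℝ) ^ 2 / 2 * (4 / w) := by
          refine mul_le_mul_of_nonneg_left (hinv B (fun j => i + w - j) ?_ ?_) (by positivity)
          · intro a ha b hb hab
            have h1 := (mem_filter.1 ha).2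
            have h2 := (mem_filter.1 hb).2
            unfold nn at h1 h2
            simp only at hab
            omega
          · intro j hj
            have h1 := (mem_filter.1 hj).2
            unfold nn at h1
            show k < i + w - j
            omega
      _ = 2 * w := by field_simp; ring
  linarith

end Pool.Agent.H612K
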