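import Pool.Agent.H612K.K6
import Pool.Agent.H612K.K7

/-!
# Kreiss condition, part 8: the core contradiction
-/

open scoped InnerProductSpace
open Finset

namespace Pool.Agent.H612K

theorem pow_bound (k : ℕ) (u : ℝ) (hu : -1 ≤ u) (hk : |(k : ℝ) * u| ≤ 1) :
    (1 + u) ^ k ≤ 1 + k * u + (k * u) ^ 2 := by
  have h1 : 1 + u ≤ Real.exp u := by rw [add_comm]; exact Real.add_one_le_exp u
  have h2 : (1 + u) ^ k ≤ Real.exp (k * u) := by
    rw [Real.exp_nat_mul]
    exact pow_le_pow_left₀ (by linarith) h1 k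
  have h3 := Real.abs_exp_sub_one_sub_id_le hk
  have h4 := (abs_le.1 h3).2
  linarith

/-- weights: variance lower bound and the two perturbed weights -/
theorem weights (S : Finset ℕ) (g c : ℕ → ℝ) (k : ℕ) (hk : 2 ≤ k)
    (hg0 : ∀ j ∈ S, 0 ≤ g j) (hgsum : ∑ j ∈ S, g j ^ k = 1)
    (hc0 : ∀ j ∈ S, 0 ≤ c j) (hc1 : ∀ j ∈ S, c j ≤ 1.03)
    (A B : ℕ → Prop) [DecidablePred A] [DecidablePred B]
    (hA : 1 / 8 ≤ ∑ j ∈ S.filter A, g j ^ k) (hB : 5 / 8 ≤ ∑ j ∈ S.filter B, g j ^ k)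
    (hAc : ∀ j ∈ S, A j → 0.49 ≤ c j) (hBc : ∀ j ∈ S, B j → c j ≤ 0.39) :
    ∃ (ψ : ℕ → ℝ) (V : ℝ), 1 / 3200 ≤ V ∧ V ≤ 1.07 ∧ (∀ j ∈ S, |ψ j| ≤ 1.03) ∧
      ∑ j ∈ S, g j ^ k * ψ j = 0 ∧ ∑ j ∈ S, g j ^ k * (ψ j * c j) = V ∧
      ∑ j ∈ S, (g j * (1 + 1 / (2 * k) * ψ j) / (1 + 1 / (4 * k) * V)) ^ k ≤ 1 ∧
      ∑ j ∈ S, (g j * (1 - 1 / (2 * k) * ψ j) / (1 + 1 / (4 * k) * V)) ^ k ≤ 1 := by
  have hkR : (2 : ℝ) ≤ k := by exact_mod_cast hk
  have hP0 : ∀ j ∈ S, 0 ≤ g j ^ k := fun j hj => pow_nonneg (hg0 j hj) k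
  set mb : ℝ := ∑ j ∈ S, g j ^ k * c j with hmb
  have hmb0 : 0 ≤ mb := Finset.sum_nonneg fun j hj => mul_nonneg (hP0 j hj) (hc0 j hj)
  have hmb1 : mb ≤ 1.03 := by
    calc mb ≤ ∑ j ∈ S, g j ^ k * 1.03 :=
          Finset.sum_le_sum fun j hj => mul_le_mul_of_nonneg_left (hc1 j hj) (hP0 j hj)
      _ = 1.03 := by rw [← Finset.sum_mul, hgsum, one_mul]
  set ψ : ℕ → ℝ := fun j => c j - mb with hψ
  have hψb : ∀ j ∈ S, |ψ j| ≤ 1.03 := by
    intro j hj
    simp only [hψ]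
    rw [abs_le]
    constructor <;> linarith [hc0 j hj, hc1 j hj]
  have hψ0 : ∑ j ∈ S, g j ^ k * ψ j = 0 := by
    simp only [hψ, mul_sub, Finset.sum_sub_distrib]
    rw [← Finset.sum_mul, hgsum, one_mul, ← hmb, sub_self]
  set V : ℝ := ∑ j ∈ S, g j ^ k * (ψ j) ^ 2 with hV
  have hVc : ∑ j ∈ S, g j ^ k * (ψ j * c j) = V := by
    have e1 : ∀ j ∈ S, g j ^ k * (ψ j * c j) = g j ^ k * (ψ j) ^ 2 + mb * (g j ^ k * ψ j) := by
      intro j _
      simp only [hψ]; ring
    rw [Finset.sum_congr rfl e1, Finset.sum_add_distrib, ← Finset.mul_sum, hψ0, mul_zero, add_zero]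
  have hVlow : 1 / 3200 ≤ V := by
    by_cases hm : mb ≤ 0.44
    · have h1 : ∑ j ∈ S.filter A, g j ^ k * 0.0025 ≤ V := by
        refine le_trans ?_ (Finset.sum_le_sum_of_subset_of_nonneg (Finset.filter_subset A S) ?_)
        · refine Finset.sum_le_sum fun j hj => ?_
          have hjS := (mem_filter.1 hj).1
          have := hAc j hjS (mem_filter.1 hj).2
          refine mul_le_mul_of_nonneg_left ?_ (hP0 j hjS)
          simp only [hψ]
          nlinarith
        · intro j hj _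
          exact mul_nonneg (hP0 j hj) (sq_nonneg _)
      rw [← Finset.sum_mul] at h1
      nlinarith
    · rw [not_le] at hm
      have h1 : ∑ j ∈ S.filter B, g j ^ k * 0.0025 ≤ V := by
        refine le_trans ?_ (Finset.sum_le_sum_of_subset_of_nonneg (Finset.filter_subset B S) ?_)
        · refine Finset.sum_le_sum fun j hj => ?_
          have hjS := (mem_filter.1 hj).1
          have := hBc j hjS (mem_filter.1 hj).2
          refine mul_le_mul_of_nonneg_left ?_ (hP0 j hjS)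
          simp only [hψ]
          nlinarith
        · intro j hj _
          exact mul_nonneg (hP0 j hj) (sq_nonneg _)
      rw [← Finset.sum_mul] at h1
      nlinarith
  have hVup : V ≤ 1.07 := by
    calc V ≤ ∑ j ∈ S, g j ^ k * 1.07 := by
          refine Finset.sum_le_sum fun j hj => mul_le_mul_of_nonneg_left ?_ (hP0 j hj)
          have := hψb j hj
          rw [abs_le] at this
          nlinarith
      _ = 1.07 := by rw [← Finset.sum_mul, hgsum, one_mul]
  have hV0 : 0 ≤ V := by linarith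
  set μ : ℝ := 1 + 1 / (4 * k) * V with hμ
  have hμ0 : 0 < μ := by rw [hμ]; positivity
  have hμk : 1 + V / 4 ≤ μ ^ k := by
    have h1 := one_add_mul_le_pow (a := 1 / (4 * k) * V)
      (by have : 0 ≤ 1 / (4 * (k : ℝ)) * V := by positivity
          linarith) k
    have h2 : (k : ℝ) * (1 / (4 * k) * V) = V / 4 := by field_simp
    rw [h2] at h1
    exact h1
  have key : ∀ s : ℝ, s ^ 2 = 1 →
      ∑ j ∈ S, (g j * (1 + s * (1 / (2 * k) * ψ j)) / μ) ^ k ≤ 1 := by
    intro s hs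
    have e1 : ∀ j ∈ S, (g j * (1 + s * (1 / (2 * k) * ψ j)) / μ) ^ k ≤
        (g j ^ k * (1 + s * ψ j / 2 + (ψ j) ^ 2 / 4)) / μ ^ k := by
      intro j hj
      rw [div_pow, mul_pow]
      refine div_le_div_of_nonneg_right ?_ (by positivity)
      refine mul_le_mul_of_nonneg_left ?_ (hP0 j hj)
      have h2 : (k : ℝ) * (s * (1 / (2 * k) * ψ j)) = s * ψ j / 2 := by field_simp
      have hs1 : |s| = 1 := by
        have : |s| ^ 2 = 1 := by rw [sq_abs]; exact hs
        have h0 := abs_nonneg s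
        nlinarith
      have h3 : |s * ψ j| ≤ 1.03 := by rw [abs_mul, hs1, one_mul]; exact hψb j hj
      have h4 := pow_bound k (s * (1 / (2 * k) * ψ j)) ?_ ?_
      · rw [h2] at h4
        refine h4.trans (le_of_eq ?_)
        have : (s * ψ j / 2) ^ 2 = s ^ 2 * (ψ j) ^ 2 / 4 := by ring
        rw [this, hs, one_mul]
      · have h5 : s * (1 / (2 * (k : ℝ)) * ψ j) = (s * ψ j) / (2 * k) := by ring
        rw [h5]
        have h6 : |(s * ψ j) / (2 * (k : ℝ))| ≤ 1 := by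
          rw [abs_div, abs_of_pos (by positivity : (0 : ℝ) < 2 * k), div_le_one (by positivity)]
          linarith
        exact (abs_le.1 h6).1
      · rw [h2, abs_div, abs_of_pos (by norm_num : (0 : ℝ) < 2)]
        linarith
    refine (Finset.sum_le_sum e1).trans ?_
    rw [← Finset.sum_div, div_le_one (by positivity)]
    refine le_trans (le_of_eq ?_) hμk
    have e2 : ∀ j ∈ S, g j ^ k * (1 + s * ψ j / 2 + (ψ j) ^ 2 / 4) =
        g j ^ k + (s / 2) * (g j ^ k * ψ j) + (1 / 4) * (g j ^ k * (ψ j) ^ 2) := by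
      intro j _; ring
    rw [Finset.sum_congr rfl e2, Finset.sum_add_distrib, Finset.sum_add_distrib,
      ← Finset.mul_sum, ← Finset.mul_sum, hgsum, hψ0, ← hV]
    ring
  refine ⟨ψ, V, hVlow, hVup, hψb, hψ0, hVc, ?_, ?_⟩
  · have := key 1 (by norm_num)
    refine le_trans (le_of_eq ?_) this
    refine Finset.sum_congr rfl fun j _ => ?_
    rw [one_mul]
  · have := key (-1) (by norm_num)
    refine le_trans (le_of_eq ?_) this
    refine Finset.sum_congr rfl fun j _ => ?_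
    congr 3
    ring

end Pool.Agent.H612K
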