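import Pool.Agent.H612K.K8

/-!
# Kreiss condition, part 9: the numerical core
-/

open Finset

namespace Pool.Agent.H612K

set_option maxHeartbeats 1000000 in
theorem num_final (S : Finset ℕ) (g a p q ψ b1 b2 : ℕ → ℝ) {k : ℕ} (hk : 2 ≤ k)
    {Λ V d X1 X2 s₀ : ℝ} (hs₀ : s₀ = 1 / (51200 * k))
    (hg0 : ∀ j ∈ S, 0 ≤ g j) (hgsum : ∑ j ∈ S, g j ^ k = 1)
    (ha0 : ∀ j ∈ S, 0 ≤ a j) (hp0 : ∀ j ∈ S, 0 ≤ p j) (hq0 : ∀ j ∈ S, 0 ≤ q j)
    (hp1 : ∀ j ∈ S, p j ^ 2 ≤ 1.03) (hpq : ∀ j ∈ S, |p j ^ 2 + q j ^ 2 - 1| ≤ s₀)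
    (hψb : ∀ j ∈ S, |ψ j| ≤ 1.03) (hψ0 : ∑ j ∈ S, g j ^ k * ψ j = 0)
    (hψc : ∑ j ∈ S, g j ^ k * (ψ j * p j ^ 2) = V) (hV1 : 1 / 3200 ≤ V) (hV2 : V ≤ 1.07)
    (hΛ : 0 < Λ) (hgP : ∀ j ∈ S, g j * a j ^ 2 = Λ * g j ^ k)
    (hb1 : ∀ j ∈ S, p j ^ 2 * (a j ^ 2 - 2 * a j * d) ≤ b1 j)
    (hb2 : ∀ j ∈ S, q j ^ 2 * a j ^ 2 - 2 * (p j * q j) * (a j * d) ≤ b2 j)
    (h1 : ∑ j ∈ S, (g j * (1 + 1 / (2 * k) * ψ j) / (1 + 1 / (4 * k) * V)) * b1 j ≤ Λ * X1)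
    (h2 : ∑ j ∈ S, (g j * (1 - 1 / (2 * k) * ψ j) / (1 + 1 / (4 * k) * V)) * b2 j ≤ Λ * X2)
    (hX : (1 - s₀) * (X1 + X2) ≤ 1) (hd0 : 0 ≤ d)
    (hd : 10 / s₀ * d ^ 2 * ∑ j ∈ S, g j * p j ^ 2 ≤ s₀ * Λ) : False := by
  have hkR : (2 : ℝ) ≤ k := by exact_mod_cast hk
  have hs0pos : 0 < s₀ := by rw [hs₀]; positivity
  have hs0small : s₀ ≤ 1 / 102400 := by
    rw [hs₀, div_le_div_iff₀ (by positivity) (by norm_num)]
    linarith
  set ε : ℝ := 1 / (2 * k) with hε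
  have hε0 : 0 < ε := by rw [hε]; positivity
  have hε4 : ε ≤ 1 / 4 := by
    rw [hε, div_le_div_iff₀ (by positivity) (by norm_num)]; linarith
  have hεs : ε = 25600 * s₀ := by rw [hε, hs₀]; field_simp; norm_num
  set μ : ℝ := 1 + 1 / (4 * k) * V with hμ
  have hμε : μ = 1 + ε * V / 2 := by rw [hμ, hε]; field_simp; ring
  have hV0 : 0 < V := by linarith
  have hμ0 : 0 < μ := by rw [hμε]; positivity
  have hP0 : ∀ j ∈ S, 0 ≤ g j ^ k := fun j hj => pow_nonneg (hg0 j hj) k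
  -- clear the denominators
  have h1' : ∑ j ∈ S, g j * (1 + ε * ψ j) * b1 j ≤ μ * (Λ * X1) := by
    have e : ∀ j ∈ S, g j * (1 + ε * ψ j) * b1 j = μ * ((g j * (1 + ε * ψ j) / μ) * b1 j) := by
      intro j _; field_simp
    rw [Finset.sum_congr rfl e, ← Finset.mul_sum]
    exact mul_le_mul_of_nonneg_left h1 hμ0.le
  have h2' : ∑ j ∈ S, g j * (1 - ε * ψ j) * b2 j ≤ μ * (Λ * X2) := by
    have e : ∀ j ∈ S, g j * (1 - ε * ψ j) * b2 j = μ * ((g j * (1 - ε * ψ j) / μ) * b2 j) := by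
      intro j _; field_simp
    rw [Finset.sum_congr rfl e, ← Finset.mul_sum]
    exact mul_le_mul_of_nonneg_left h2 hμ0.le
  -- termwise lower bound
  have hterm : ∀ j ∈ S, g j * a j ^ 2 * ((1 + ε * ψ j) * p j ^ 2 + (1 - ε * ψ j) * q j ^ 2) -
      (s₀ * (g j * a j ^ 2) + 10 / s₀ * d ^ 2 * (g j * p j ^ 2)) ≤
      g j * (1 + ε * ψ j) * b1 j + g j * (1 - ε * ψ j) * b2 j := by
    intro j hj
    have hψj := abs_le.1 (hψb j hj)
    have hεψ : |ε * ψ j| ≤ 1 / 2 := by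
      rw [abs_mul, abs_of_pos hε0]
      nlinarith [hψb j hj, abs_nonneg (ψ j)]
    have hεψ' := abs_le.1 hεψ
    set A := 1 + ε * ψ j with hA
    set B := 1 - ε * ψ j with hB
    have hA0 : 0 ≤ A := by linarith
    have hB0 : 0 ≤ B := by linarith
    have hA1 : A ≤ 3 / 2 := by linarith
    have hB1 : B ≤ 3 / 2 := by linarith
    have ha := ha0 j hj
    have hp := hp0 j hj
    have hq := hq0 j hj
    have hgj := hg0 j hj
    have hpj : p j ≤ 1.02 := by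
      have := hp1 j hj
      by_contra hcon
      rw [not_le] at hcon
      nlinarith
    have hqj : q j ≤ 1.01 := by
      have := (abs_le.1 (hpq j hj)).2
      by_contra hcon
      rw [not_le] at hcon
      nlinarith [sq_nonneg (p j)]
    have e1 : g j * A * (p j ^ 2 * (a j ^ 2 - 2 * a j * d)) ≤ g j * A * b1 j :=
      mul_le_mul_of_nonneg_left (hb1 j hj) (mul_nonneg hgj hA0)
    have e2 : g j * B * (q j ^ 2 * a j ^ 2 - 2 * (p j * q j) * (a j * d)) ≤ g j * B * b2 j :=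
      mul_le_mul_of_nonneg_left (hb2 j hj) (mul_nonneg hgj hB0)
    have hpad : 0 ≤ p j * (a j * d) := by positivity
    have e3 : 2 * (a j * d) * (A * p j ^ 2 + B * (p j * q j)) ≤ 6.3 * (p j * (a j * d)) := by
      have e41 : A * p j ≤ 3 / 2 * 1.02 := mul_le_mul hA1 hpj hp (by norm_num)
      have e42 : B * q j ≤ 3 / 2 * 1.01 := mul_le_mul hB1 hqj hq (by norm_num)
      have e4 : A * p j + B * q j ≤ 3.15 := by linarith
      have e5 : 2 * (a j * d) * (A * p j ^ 2 + B * (p j * q j)) =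
          2 * (p j * (a j * d)) * (A * p j + B * q j) := by ring
      rw [e5]
      have e51 := mul_le_mul_of_nonneg_left e4 (by positivity : 0 ≤ 2 * (p j * (a j * d)))
      linarith
    have e6 : 6.3 * (p j * (a j * d)) ≤ s₀ * a j ^ 2 + 10 / s₀ * d ^ 2 * p j ^ 2 := by
      have e7 : 0 ≤ (s₀ * a j - 3.15 * (p j * d)) ^ 2 := sq_nonneg _
      have e8 : s₀ * (6.3 * (p j * (a j * d))) ≤
          s₀ * (s₀ * a j ^ 2 + 10 / s₀ * d ^ 2 * p j ^ 2) := by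
        have e9 : s₀ * (s₀ * a j ^ 2 + 10 / s₀ * d ^ 2 * p j ^ 2) =
            s₀ ^ 2 * a j ^ 2 + 10 * (p j * d) ^ 2 := by
          field_simp
        rw [e9]
        have e91 : (s₀ * a j - 3.15 * (p j * d)) ^ 2 = s₀ ^ 2 * a j ^ 2 -
            s₀ * (6.3 * (p j * (a j * d))) + 9.9225 * (p j * d) ^ 2 := by ring
        have e92 := sq_nonneg (p j * d)
        linarith
      exact le_of_mul_le_mul_left e8 hs0pos
    have e10 : g j * (2 * (a j * d) * (A * p j ^ 2 + B * (p j * q j))) ≤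
        g j * (s₀ * a j ^ 2 + 10 / s₀ * d ^ 2 * p j ^ 2) :=
      mul_le_mul_of_nonneg_left (e3.trans e6) hgj
    clear_value A B
    linarith
  have hsumlow := Finset.sum_le_sum hterm
  rw [Finset.sum_add_distrib, Finset.sum_sub_distrib, Finset.sum_add_distrib,
    ← Finset.mul_sum, ← Finset.mul_sum] at hsumlow
  have hga : ∑ j ∈ S, g j * a j ^ 2 = Λ := by
    rw [Finset.sum_congr rfl hgP, ← Finset.mul_sum, hgsum, mul_one]
  rw [hga] at hsumlow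
  -- the main term
  have hmain : Λ * (1 - 2 * s₀ + 2 * (ε * V)) ≤
      ∑ j ∈ S, g j * a j ^ 2 * ((1 + ε * ψ j) * p j ^ 2 + (1 - ε * ψ j) * q j ^ 2) := by
    have e1 : ∀ j ∈ S, Λ * (g j ^ k + 2 * ε * (g j ^ k * (ψ j * p j ^ 2)) -
        ε * (g j ^ k * ψ j) - s₀ * g j ^ k - ε * (1.03 * (s₀ * g j ^ k))) ≤
        g j * a j ^ 2 * ((1 + ε * ψ j) * p j ^ 2 + (1 - ε * ψ j) * q j ^ 2) := by
      intro j hj
      rw [hgP j hj]
      have hψj := hψb j hj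
      have hpqj := abs_le.1 (hpq j hj)
      set e := p j ^ 2 + q j ^ 2 - 1 with he
      have e2 : (1 + ε * ψ j) * p j ^ 2 + (1 - ε * ψ j) * q j ^ 2 =
          1 + e + ε * (2 * (ψ j * p j ^ 2)) - ε * ψ j - ε * (ψ j * e) := by
        rw [he]; ring
      have e3 : ψ j * e ≤ 1.03 * s₀ := by
        calc ψ j * e ≤ |ψ j * e| := le_abs_self _
          _ = |ψ j| * |e| := abs_mul _ _
          _ ≤ 1.03 * s₀ := mul_le_mul hψj (hpq j hj) (abs_nonneg _) (by norm_num)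
      have e4 : 1 + 2 * ε * (ψ j * p j ^ 2) - ε * ψ j - s₀ - ε * (1.03 * s₀) ≤
          (1 + ε * ψ j) * p j ^ 2 + (1 - ε * ψ j) * q j ^ 2 := by
        rw [e2]
        have e31 := mul_le_mul_of_nonneg_left e3 hε0.le
        linarith [hpqj.1]
      have e5 : 0 ≤ Λ * g j ^ k := mul_nonneg hΛ.le (hP0 j hj)
      calc _ = Λ * g j ^ k * (1 + 2 * ε * (ψ j * p j ^ 2) - ε * ψ j - s₀ - ε * (1.03 * s₀)) := by
            ring
        _ ≤ _ := mul_le_mul_of_nonneg_left e4 e5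
    refine le_trans ?_ (Finset.sum_le_sum e1)
    rw [← Finset.mul_sum]
    refine mul_le_mul_of_nonneg_left ?_ hΛ.le
    rw [Finset.sum_sub_distrib, Finset.sum_sub_distrib, Finset.sum_sub_distrib,
      Finset.sum_add_distrib, ← Finset.mul_sum, ← Finset.mul_sum, ← Finset.mul_sum,
      ← Finset.mul_sum, ← Finset.mul_sum, ← Finset.mul_sum, hgsum, hψ0, hψc]
    nlinarith
  have hfin : Λ * (1 - 4 * s₀ + 2 * (ε * V)) ≤ μ * (Λ * (X1 + X2)) := by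
    have : μ * (Λ * (X1 + X2)) = μ * (Λ * X1) + μ * (Λ * X2) := by ring
    rw [this]
    nlinarith
  have hfin2 : 1 - 4 * s₀ + 2 * (ε * V) ≤ μ * (X1 + X2) := by
    have : Λ * (1 - 4 * s₀ + 2 * (ε * V)) ≤ Λ * (μ * (X1 + X2)) := by
      calc _ ≤ μ * (Λ * (X1 + X2)) := hfin
        _ = _ := by ring
    exact le_of_mul_le_mul_left this hΛ
  have h1s : 0 < 1 - s₀ := by linarith
  have hfin3 : (1 - s₀) * (1 - 4 * s₀ + 2 * (ε * V)) ≤ μ := by
    calc (1 - s₀) * (1 - 4 * s₀ + 2 * (ε * V)) ≤ (1 - s₀) * (μ * (X1 + X2)) :=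
          mul_le_mul_of_nonneg_left hfin2 h1s.le
      _ = μ * ((1 - s₀) * (X1 + X2)) := by ring
      _ ≤ μ * 1 := mul_le_mul_of_nonneg_left hX hμ0.le
      _ = μ := mul_one μ
  rw [hμε] at hfin3
  have hεV : 8 * s₀ ≤ ε * V := by rw [hεs]; nlinarith
  have hεV2 : 0 ≤ ε * V := by positivity
  nlinarith [mul_nonneg hs0pos.le hεV2]

end Pool.Agent.H612K
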